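import Pool.Agent.J4H13.TL.Jobs

/-!
# The machine for extensions generated by cube roots
-/

set_option autoImplicit false

open MvPolynomial

namespace Pool.Agent.J4H13.TL

open Pool.Agent.Helper397.HK Pool.Agent.J4H13.BC

section

variable {K : Type} [Field K] [Algebra ℂ K] (k₀ : IntermediateField ℂ K) {k : ℕ} (w : Fin k → K)

lemma exists_zeta : ∃ ζ : ℂ, ζ ^ 3 = 1 ∧ 1 + ζ + ζ ^ 2 = 0 := by
  have h := Complex.isPrimitiveRoot_exp 3 (by norm_num)
  obtain ⟨ζ, hζ⟩ : ∃ ζ, ζ = Complex.exp (2 * Real.pi * Complex.I / (3 : ℕ)) := ⟨_, rfl⟩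
  rw [← hζ] at h
  refine ⟨ζ, h.pow_eq_one, ?_⟩
  have h1 : (ζ - 1) * (1 + ζ + ζ ^ 2) = 0 := by
    linear_combination h.pow_eq_one
  exact (mul_eq_zero.1 h1).resolve_left (sub_ne_zero.2 (h.ne_one (by norm_num)))

/-- the factorization of `X³ - w³` -/
lemma cube_fac {F : Type} [CommRing F] {ζ : F} (hζ : 1 + ζ + ζ ^ 2 = 0) (a b : F) :
    a ^ 3 - b ^ 3 = (a - b) * ((a - ζ * b) * (a - ζ ^ 2 * b)) := by
  have h3 : ζ ^ 3 = 1 := by linear_combination (ζ - 1) * hζ
  linear_combination (a - b) * a * b * hζ - (a - b) * b ^ 2 * h3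

lemma minpoly_splits3 (hw : ∀ i, w i ^ 3 ∈ k₀) (i : Fin k) :
    IsIntegral k₀ (w i) ∧ ((minpoly k₀ (w i)).map (algebraMap k₀ K)).Splits := by
  obtain ⟨ζ, -, hζ⟩ := exists_zeta
  obtain ⟨p, hp⟩ : ∃ p : Polynomial k₀, p = Polynomial.X ^ 3 - Polynomial.C ⟨w i ^ 3, hw i⟩ :=
    ⟨_, rfl⟩
  have hmon : p.Monic := by
    rw [hp]
    exact Polynomial.monic_X_pow_sub_C _ (by norm_num)
  have hroot : Polynomial.aeval (w i) p = 0 := by
    rw [hp, map_sub, map_pow, Polynomial.aeval_X, Polynomial.aeval_C]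
    change w i ^ 3 - w i ^ 3 = 0
    ring
  have hmap : p.map (algebraMap k₀ K) = (Polynomial.X - Polynomial.C (w i)) *
      ((Polynomial.X - Polynomial.C (algebraMap ℂ K ζ * w i)) *
      (Polynomial.X - Polynomial.C (algebraMap ℂ K ζ ^ 2 * w i))) := by
    rw [hp, Polynomial.map_sub, Polynomial.map_pow, Polynomial.map_X, Polynomial.map_C]
    have h1 : algebraMap k₀ K ⟨w i ^ 3, hw i⟩ = w i ^ 3 := rfl
    rw [h1, Polynomial.C_pow]
    have h2 := cube_fac (ζ := Polynomial.C (algebraMap ℂ K ζ)) (by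
      rw [← Polynomial.C_1, ← Polynomial.C_pow, ← Polynomial.C_add, ← Polynomial.C_add]
      have : (1 : K) + algebraMap ℂ K ζ + algebraMap ℂ K ζ ^ 2 = 0 := by
        have := congrArg (algebraMap ℂ K) hζ
        simpa using this
      rw [this, Polynomial.C_0]) Polynomial.X (Polynomial.C (w i))
    rw [h2, Polynomial.C_mul, Polynomial.C_mul, Polynomial.C_pow]
  refine ⟨⟨p, hmon, hroot⟩, ?_⟩
  have h1 : (p.map (algebraMap k₀ K)).Splits := by
    rw [hmap]
    exact (Polynomial.Splits.X_sub_C _).mul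
      ((Polynomial.Splits.X_sub_C _).mul (Polynomial.Splits.X_sub_C _))
  refine Polynomial.Splits.of_dvd h1 ?_ (Polynomial.map_dvd _ (minpoly.dvd _ _ hroot))
  exact (hmon.map _).ne_zero

variable {k₀ w}

lemma isGalois_cbrt (hw : ∀ i, w i ^ 3 ∈ k₀)
    (hgen : IntermediateField.adjoin k₀ (Set.range w) = ⊤) :
    FiniteDimensional k₀ K ∧ IsGalois k₀ K := by
  have hchar : CharZero k₀ := charZero_of_C k₀
  have h1 : ∀ x ∈ Set.range w, IsIntegral k₀ x := by
    rintro _ ⟨i, rfl⟩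
    exact (minpoly_splits3 k₀ w hw i).1
  have hfin : FiniteDimensional k₀ K := by
    have h2 := IntermediateField.finiteDimensional_adjoin (K := k₀) (S := Set.range w) h1
    rw [hgen] at h2
    exact (IntermediateField.topEquiv (F := k₀) (E := K)).toLinearEquiv.finiteDimensional
  have hnorm : Normal k₀ K := by
    have halg : Algebra.IsAlgebraic k₀ K := Algebra.IsAlgebraic.of_finite k₀ K
    refine { splits' := fun x => ?_ }
    have hx : x ∈ IntermediateField.adjoin k₀ (Set.range w) := by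
      rw [hgen]
      trivial
    refine IntermediateField.splits_of_mem_adjoin k₀ K (S := Set.range w) ?_ hx
    rintro _ ⟨i, rfl⟩
    exact minpoly_splits3 k₀ w hw i
  exact ⟨hfin, ⟨⟩⟩

lemma zeta_pow {ζ : ℂ} (h3 : ζ ^ 3 = 1) (hζ : 1 + ζ + ζ ^ 2 = 0) (m : ℕ) :
    (1 + ζ ^ m + (ζ ^ m) ^ 2 = if 3 ∣ m then 3 else 0) ∧ (ζ ^ m = 1 ↔ 3 ∣ m) := by
  have hne : ζ ≠ 1 := by
    rintro rfl
    norm_num at hζ
  have hne2 : ζ ^ 2 ≠ 1 := by
    intro h
    rw [h] at hζ
    apply hne
    have h4 : ζ = -2 := by linear_combination hζ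
    rw [h4] at h
    norm_num at h
  have h1 : ζ ^ m = ζ ^ (m % 3) := by
    conv_lhs => rw [← Nat.div_add_mod m 3, pow_add, pow_mul, h3, one_pow, one_mul]
  have h2 : m % 3 < 3 := Nat.mod_lt _ (by norm_num)
  have h5 : 3 ∣ m ↔ m % 3 = 0 := Nat.dvd_iff_mod_eq_zero
  rw [h1]
  simp only [h5]
  rcases (by omega : m % 3 = 0 ∨ m % 3 = 1 ∨ m % 3 = 2) with h | h | h
  · rw [h]
    norm_num
  · rw [h]
    refine ⟨?_, ?_⟩
    · rw [if_neg (by norm_num), pow_one]
      exact hζ
    · rw [pow_one]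
      exact ⟨fun h => absurd h hne, fun h => by norm_num at h⟩
  · rw [h]
    refine ⟨?_, ?_⟩
    · rw [if_neg (by norm_num)]
      linear_combination hζ + ζ * h3
    · exact ⟨fun h => absurd h hne2, fun h => by norm_num at h⟩

/-- the number of solutions of a linear equation modulo three -/
lemma count3 {k : ℕ} (a : Fin k → ℕ) (ha : ∃ i, ¬ 3 ∣ a i) :
    ∑ e : Fin k → Fin 3, (if 3 ∣ ∑ i, (e i : ℕ) * a i then (3 : ℚ) else 0) = 3 ^ k := by
  classical
  obtain ⟨ζ, h3, hζ⟩ := exists_zeta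
  obtain ⟨i₀, hi₀⟩ := ha
  have h1 : ∑ e : Fin k → Fin 3, (if 3 ∣ ∑ i, (e i : ℕ) * a i then (3 : ℂ) else 0) = 3 ^ k := by
    have h2 : ∀ e : Fin k → Fin 3, (if 3 ∣ ∑ i, (e i : ℕ) * a i then (3 : ℂ) else 0) =
        1 + ∏ i, ζ ^ ((e i : ℕ) * a i) + ∏ i, (ζ ^ ((e i : ℕ) * a i)) ^ 2 := by
      intro e
      rw [← (zeta_pow h3 hζ _).1, Finset.prod_pow, Finset.prod_pow_eq_pow_sum]
    rw [Finset.sum_congr rfl fun e _ => h2 e, Finset.sum_add_distrib, Finset.sum_add_distrib]
    have e1 : ∑ e : Fin k → Fin 3, ∏ i, ζ ^ ((e i : ℕ) * a i) = 0 := by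
      have h4 := Finset.sum_prod_piFinset (Finset.univ : Finset (Fin 3))
        (fun (i : Fin k) (t : Fin 3) => ζ ^ ((t : ℕ) * a i))
      rw [Fintype.piFinset_univ] at h4
      rw [h4]
      apply Finset.prod_eq_zero (Finset.mem_univ i₀)
      have h5 := (zeta_pow h3 hζ (a i₀)).1
      rw [if_neg hi₀] at h5
      rw [Fin.sum_univ_three]
      change ζ ^ (0 * a i₀) + ζ ^ (1 * a i₀) + ζ ^ (2 * a i₀) = 0
      rw [← h5]
      ring
    have e2 : ∑ e : Fin k → Fin 3, ∏ i, (ζ ^ ((e i : ℕ) * a i)) ^ 2 = 0 := by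
      have h4 := Finset.sum_prod_piFinset (Finset.univ : Finset (Fin 3))
        (fun (i : Fin k) (t : Fin 3) => (ζ ^ ((t : ℕ) * a i)) ^ 2)
      rw [Fintype.piFinset_univ] at h4
      rw [h4]
      apply Finset.prod_eq_zero (Finset.mem_univ i₀)
      have h5 := (zeta_pow h3 hζ (a i₀)).1
      rw [if_neg hi₀] at h5
      have h6 : (ζ ^ a i₀) ^ 3 = 1 := by
        rw [← pow_mul, mul_comm, pow_mul, h3, one_pow]
      rw [Fin.sum_univ_three]
      change (ζ ^ (0 * a i₀)) ^ 2 + (ζ ^ (1 * a i₀)) ^ 2 + (ζ ^ (2 * a i₀)) ^ 2 = 0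
      have h7 : ζ ^ (2 * a i₀) = (ζ ^ a i₀) ^ 2 := by
        rw [← pow_mul, mul_comm]
      rw [h7, zero_mul, one_mul, pow_zero]
      linear_combination h5 + (ζ ^ a i₀) * h6
    rw [e1, e2, Finset.sum_const, Finset.card_univ, Fintype.card_fun, Fintype.card_fin,
      Fintype.card_fin]
    simp
  have h2 : ((∑ e : Fin k → Fin 3, (if 3 ∣ ∑ i, (e i : ℕ) * a i then (3 : ℚ) else 0) : ℚ) : ℂ) =
      ((3 ^ k : ℚ) : ℂ) := by
    rw [Rat.cast_sum, Rat.cast_pow, Rat.cast_ofNat, ← h1]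
    refine Finset.sum_congr rfl fun e _ => ?_
    split_ifs <;> simp
  exact_mod_cast h2

/-- **The machine for cube roots.** -/
theorem t_K3 : S_K3 := by
  classical
  intro K _ _ k₀ k w hw hw0 hgen huni N ξ hξ
  obtain ⟨hfin, hgal⟩ := isGalois_cbrt hw hgen
  let G := K ≃ₐ[k₀] K
  have hcomm : SMulCommClass G ℂ K := by
    refine ⟨fun σ c x => ?_⟩
    change σ (c • x) = c • σ x
    rw [Algebra.smul_def, Algebra.smul_def, map_mul]
    congr 1
    exact σ.commutes (algebraMap ℂ k₀ c)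
  have hGfin : Finite G := inferInstance
  obtain ⟨ζ, h3, hζ⟩ := exists_zeta
  obtain ⟨Z, hZ⟩ : ∃ Z : K, Z = algebraMap ℂ K ζ := ⟨_, rfl⟩
  have hZ1 : 1 + Z + Z ^ 2 = 0 := by
    have := congrArg (algebraMap ℂ K) hζ
    rw [hZ]
    simpa using this
  have hZpow : ∀ m : ℕ, Z ^ m = 1 ↔ 3 ∣ m := by
    intro m
    rw [← (zeta_pow h3 hζ m).2, hZ, ← map_pow]
    constructor
    · intro h
      rw [← map_one (algebraMap ℂ K)] at h
      exact (algebraMap ℂ K).injective h
    · intro h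
      rw [h, map_one]
  have hZ3 : Z ^ 3 = 1 := (hZpow 3).2 (dvd_refl 3)
  have hZσ : ∀ (σ : G), σ Z = Z := by
    intro σ
    rw [hZ]
    exact σ.commutes (algebraMap ℂ k₀ ζ)
  -- the exponents
  have hsign : ∀ (σ : G) (i : Fin k), ∃ a : ℕ, σ (w i) = Z ^ a * w i := by
    intro σ i
    have h1 : σ (w i) ^ 3 = w i ^ 3 := by
      rw [← map_pow]
      exact σ.commutes ⟨w i ^ 3, hw i⟩
    have h2 := cube_fac hZ1 (σ (w i)) (w i)
    rw [h1, sub_self] at h2
    rcases mul_eq_zero.1 h2.symm with h | h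
    · exact ⟨0, by rw [pow_zero, one_mul]; exact sub_eq_zero.1 h⟩
    rcases mul_eq_zero.1 h with h | h
    · exact ⟨1, by rw [pow_one]; exact sub_eq_zero.1 h⟩
    · exact ⟨2, sub_eq_zero.1 h⟩
  choose a haw using hsign
  let wS : (Fin k → Fin 3) → K := fun e => ∏ i, w i ^ (e i : ℕ)
  have hwS0 : ∀ e, wS e ≠ 0 := fun e => Finset.prod_ne_zero_iff.2 fun i _ =>
    pow_ne_zero _ (hw0 i)
  have hσS : ∀ (σ : G) (e), σ (wS e) = Z ^ (∑ i, (e i : ℕ) * a σ i) * wS e := by
    intro σ e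
    change σ (∏ i, w i ^ (e i : ℕ)) = _
    rw [map_prod, ← Finset.prod_pow_eq_pow_sum, ← Finset.prod_mul_distrib]
    refine Finset.prod_congr rfl fun i _ => ?_
    rw [map_pow, haw, mul_pow, ← pow_mul, mul_comm (a σ i)]
  let H : (Fin k → Fin 3) → Subgroup G := fun e => MulAction.stabilizer G (wS e)
  have hmem : ∀ (σ : G) e, σ ∈ H e ↔ 3 ∣ ∑ i, (e i : ℕ) * a σ i := by
    intro σ e
    rw [MulAction.mem_stabilizer_iff]
    change σ (wS e) = wS e ↔ _
    rw [hσS, ← hZpow]
    exact mul_eq_right₀ (hwS0 e)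
  let c : (Fin k → Fin 3) → ℚ := fun e => 3 / (2 * 3 ^ k) - if e = 0 then 1 / 2 else 0
  have hk0 : (3 : ℚ) ^ k ≠ 0 := pow_ne_zero _ (by norm_num)
  have hσ1 : ∀ σ : G, σ ≠ 1 → ∃ i, ¬ 3 ∣ a σ i := by
    intro σ hσ
    by_contra hcon
    push Not at hcon
    apply hσ
    have h7 : ∀ x : K, σ x = x := by
      have h8 : IntermediateField.adjoin k₀ (Set.range w) ≤
          IntermediateField.fixedField (Subgroup.zpowers σ) := by
        rw [IntermediateField.adjoin_le_iff]
        rintro _ ⟨i, rfl⟩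
        rw [SetLike.mem_coe, IntermediateField.mem_fixedField_iff]
        intro τ hτ
        have h9 : σ (w i) = w i := by rw [haw, (hZpow _).2 (hcon i), one_mul]
        have h10 : Subgroup.zpowers σ ≤ MulAction.stabilizer G (w i) := by
          rw [Subgroup.zpowers_le, MulAction.mem_stabilizer_iff]
          exact h9
        exact h10 hτ
      intro x
      have h11 : x ∈ IntermediateField.fixedField (Subgroup.zpowers σ) := by
        apply h8
        rw [hgen]
        trivial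
      exact (IntermediateField.mem_fixedField_iff _ _).1 h11 σ (Subgroup.mem_zpowers σ)
    ext x
    exact h7 x
  refine machine G H c ?_ ?_ ξ hξ
  · intro σ
    by_cases hσ : σ = 1
    · rw [if_pos hσ]
      have h1 : ∀ e, @ite ℚ (σ ∈ H e) (Classical.propDecidable _) (c e) 0 = c e := by
        intro e
        rw [if_pos]
        rw [hσ]
        exact one_mem _
      rw [Finset.sum_congr rfl fun e _ => h1 e]
      simp only [c]
      rw [Finset.sum_sub_distrib, Finset.sum_const, Finset.card_univ, Fintype.card_fun,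
        Fintype.card_fin, Fintype.card_fin, Finset.sum_ite_eq' Finset.univ 0 (fun _ => (1 / 2 : ℚ)),
        if_pos (Finset.mem_univ _), nsmul_eq_mul]
      push_cast
      field_simp
      norm_num
    · rw [if_neg hσ]
      have h1 : ∀ e, @ite ℚ (σ ∈ H e) (Classical.propDecidable _) (c e) 0 =
          (if 3 ∣ ∑ i, (e i : ℕ) * a σ i then (3 : ℚ) else 0) / (2 * 3 ^ k) -
            if e = 0 then 1 / 2 else 0 := by
        intro e
        by_cases he : σ ∈ H e
        · rw [if_pos he, if_pos ((hmem σ e).1 he)]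
        · rw [if_neg he, if_neg (fun h => he ((hmem σ e).2 h))]
          have h4 : e ≠ 0 := by
            rintro rfl
            apply he
            rw [hmem]
            simp
          rw [if_neg h4]
          norm_num
      rw [Finset.sum_congr rfl fun e _ => h1 e, Finset.sum_sub_distrib, ← Finset.sum_div,
        count3 _ (hσ1 σ hσ), Finset.sum_ite_eq' Finset.univ 0 (fun _ => (1 / 2 : ℚ)),
        if_pos (Finset.mem_univ _)]
      field_simp
      norm_num
  · intro e
    obtain ⟨L, hkL, hSL, m, ⟨j⟩⟩ := huni e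
    have hle : ∀ x ∈ FixedPoints.subalgebra ℂ K (H e), x ∈ L := by
      intro x hx
      have h1 : x ∈ IntermediateField.fixedField
          (IntermediateField.fixingSubgroup (IntermediateField.adjoin k₀ {wS e})) := by
        rw [IntermediateField.mem_fixedField_iff]
        intro σ hσ
        have h2 : σ ∈ H e := by
          rw [MulAction.mem_stabilizer_iff]
          exact (IntermediateField.mem_fixingSubgroup_iff _ _).1 hσ _
            (IntermediateField.mem_adjoin_simple_self k₀ _)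
        exact hx ⟨σ, h2⟩
      rw [IsGalois.fixedField_fixingSubgroup] at h1
      have h3 : (IntermediateField.adjoin k₀ {wS e}).restrictScalars ℂ ≤ L := by
        intro z hz
        have h4 : IntermediateField.adjoin k₀ {wS e} ≤
            IntermediateField.extendScalars hkL := by
          rw [IntermediateField.adjoin_simple_le_iff]
          exact hSL
        exact h4 hz
      exact h3 h1
    let ε : FixedPoints.subalgebra ℂ K (H e) →ₐ[ℂ] L :=
      Subalgebra.inclusion (S := FixedPoints.subalgebra ℂ K (H e)) (T := L.toSubalgebra) hle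
    exact ⟨m, j.comp ε, j.injective.comp (Subalgebra.inclusion_injective hle)⟩

end

end Pool.Agent.J4H13.TL
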