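import Pool.Agent.J4H13.TL.Main
import Pool.Agent.J4H13.TL.K3
import Pool.Agent.J4H79.TL.Cnt
import Pool.Agent.J4H42.TL.N63
import Pool.Agent.J4H42.TL.N74
import Pool.Agent.J4H64.TL.N55
import Pool.Agent.J4H64.TL.N66A
import Pool.Agent.J4H64.TL.N66B
import Pool.Agent.J4H5.TL.Geo8
import Pool.Agent.J4H41.TL.Adj
import Pool.Agent.J4H41.TL.Reg
import Pool.Agent.J4H57.TL.Exc
import Pool.Agent.J4H98.TL.Ls

/-!
# Zero-cycles on the triple covers of the plane branched along lines: the theorems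
-/

set_option autoImplicit false

open FF

namespace Pool.Agent.J4H13.TL

open Pool.Agent.J4H13.LA Pool.Agent.J4H13.BC Pool.Agent.W602.GT Pool.Agent.W603.LV
  Pool.Agent.Helper397.HK

theorem lin_all : S_LIN := J4H57.TL.t_LIN (J4H57.TL.t_PEN J4H98.TL.t_CUR J4H98.TL.t_LS)

/-- **Cyclic triple planes branched along lines.** -/
theorem good_all {K : Type} [Field K] [Algebra ℂ K] {x y : K}
    (hxy : AlgebraicIndependent ℂ ![x, y]) {L₀ : IntermediateField ℂ K} (hx : x ∈ L₀)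
    (hy : y ∈ L₀) {ι : Type} [DecidableEq ι] {l : ι → V3} (hl0 : ∀ i, l i ≠ 0) (T : Finset ι)
    (e : ι → ℕ) {w : K} (hno : NoForms L₀ w)
    (hw : w ^ 3 = ∏ i ∈ T, ev (gp x y) (l i) ^ e i) : Good x y w :=
  good_cbrt J4H41.TL.t_REG J4H79.TL.t_CNT J4H79.TL.t_FOUR J4H42.TL.t_INQ J4H42.TL.t_N63
    J4H42.TL.t_N74 J4H42.TL.t_N44 (J4H64.TL.t_N55 J4H42.TL.t_INQ) J4H64.TL.t_N66A
    J4H64.TL.t_N66B J4H5.TL.t_GEO9 J4H5.TL.t_GEO8 J4H41.TL.t_ADJ J4H41.TL.t_ADJ2 lin_all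
    (J4H57.TL.t_EXC lin_all) hxy hx hy hl0 T e hno hw

/-- **Bloch's conjecture for the covers of the plane with the group `(ℤ/3)^r` branched along
lines.** -/
theorem bloch3 {K : Type} [Field K] [Algebra ℂ K] (hpg : PgZero K) (hq : QZero K) {x y : K}
    (hxy : AlgebraicIndependent ℂ ![x, y]) {k : ℕ} {w : Fin k → K}
    (hw : ∀ i, ∃ (n : ℕ) (l : Fin n → V3), (∀ j, l j ≠ 0) ∧ w i ^ 3 = ∏ j, ev (gp x y) (l j))
    (hgen : IntermediateField.adjoin ℂ ({x, y} ∪ Set.range w) = ⊤)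
    {N : ℕ} (ξ : Fin (N + 1) → K) (hξ : ξ ≠ 0) : ∀ a b : (locus ξ hξ).Pts ℂ, cls a = cls b :=
  bloch_lines3 J4H41.TL.t_REG J4H79.TL.t_CNT J4H79.TL.t_FOUR J4H42.TL.t_INQ J4H42.TL.t_N63
    J4H42.TL.t_N74 J4H42.TL.t_N44 (J4H64.TL.t_N55 J4H42.TL.t_INQ) J4H64.TL.t_N66A
    J4H64.TL.t_N66B J4H5.TL.t_GEO9 J4H5.TL.t_GEO8 J4H41.TL.t_ADJ J4H41.TL.t_ADJ2 lin_all
    (J4H57.TL.t_EXC lin_all) t_K3 hxy hw (fun _ => noForms_of_zero hpg hq _ _) hgen ξ hξ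

end Pool.Agent.J4H13.TL
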