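import Mathlib

/-!
# The numerical case distinction
-/

set_option autoImplicit false

namespace Pool.Agent.J4H13.TL

lemma two_choose (n : ℕ) : 2 * n.choose 2 = n * (n - 1) := by
  rw [Nat.choose_two_right]
  exact Nat.two_mul_div_two_of_even (Nat.even_mul_pred_self n)

/-- half of the numerical bound -/
lemma num_half {b k k' x Y u : ℕ} (hk : 3 ≤ k) (hb : b + k' = 2 * k)
    (h1 : (k - 1).choose 2 ≤ x + Y + u) (h2 : x + 3 * Y + 6 * u ≤ b.choose 2) : k' ≤ k + 1 := by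
  have e1 := two_choose (k - 1)
  have e2 := two_choose b
  by_contra hcon
  push Not at hcon
  obtain ⟨m, rfl⟩ : ∃ m, k = m + 3 := ⟨k - 3, by omega⟩
  have hb' : b ≤ m + 1 := by omega
  have e3 : m + 3 - 1 = m + 2 := by omega
  have e4 : m + 2 - 1 = m + 1 := by omega
  rw [e3] at e1 h1
  rw [e4] at e1
  have e5 : b * (b - 1) ≤ (m + 1) * m := Nat.mul_le_mul hb' (by omega)
  nlinarith

theorem num {a b k k' x Y u Y' u' : ℕ} (hk : 3 ≤ k) (hk' : 3 ≤ k') (hab : a + 2 * b = 3 * k)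
    (hab' : 2 * a + b = 3 * k') (ha : 3 ≤ a) (hb : 3 ≤ b)
    (h1 : (k - 1).choose 2 ≤ x + Y + u) (h1' : (k' - 1).choose 2 ≤ x + Y' + u')
    (h2 : x + 3 * Y + 6 * u ≤ b.choose 2) (h2' : x + 3 * Y' + 6 * u' ≤ a.choose 2)
    (h3 : 2 * x ≤ b * (a / 2)) (h3' : 2 * x ≤ a * (b / 2)) :
    (a = 6 ∧ b = 3 ∧ x = 3 ∧ 1 ≤ Y' + u') ∨ (a = 3 ∧ b = 6 ∧ x = 3 ∧ 1 ≤ Y + u) ∨
    (a = 7 ∧ b = 4 ∧ x = 6) ∨ (a = 4 ∧ b = 7 ∧ x = 6) ∨ (a = 3 ∧ b = 3 ∧ k = 3 ∧ k' = 3) ∨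
    (a = 4 ∧ b = 4 ∧ 3 ≤ x + Y + u ∧ 3 ≤ x + Y' + u') ∨
    (a = 5 ∧ b = 5 ∧ 6 ≤ x + Y + u ∧ 6 ≤ x + Y' + u') ∨
    (a = 6 ∧ b = 6 ∧ x = 9 ∧ 1 ≤ Y + u) ∨ (a = 6 ∧ b = 6 ∧ x = 8 ∧ Y = 2 ∧ Y' = 2) := by
  have hkk := num_half hk (by omega : b + k' = 2 * k) h1 h2
  have hkk' := num_half hk' (by omega : a + k = 2 * k') h1' h2'
  have e1 := two_choose (k - 1)
  have e1' := two_choose (k' - 1)
  have e2 := two_choose b
  have e2' := two_choose a
  have e3 : 4 * x ≤ a * b := by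
    have : b * (a / 2) * 2 ≤ b * a := by
      rw [mul_assoc]
      exact Nat.mul_le_mul_left _ (Nat.div_mul_le_self _ _)
    nlinarith
  have hk8 : k ≤ 8 := by
    by_contra hcon
    push Not at hcon
    obtain ⟨m, rfl⟩ : ∃ m, k = m + 9 := ⟨k - 9, by omega⟩
    have e5 : m + 9 - 1 = m + 8 := by omega
    have e6 : m + 8 - 1 = m + 7 := by omega
    rw [e5] at e1 h1
    rw [e6] at e1
    rcases (by omega : k' = m + 8 ∨ k' = m + 9 ∨ k' = m + 10) with rfl | rfl | rfl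
    · obtain rfl : a = m + 7 := by omega
      obtain rfl : b = m + 10 := by omega
      have e7 : m + 8 - 1 = m + 7 := by omega
      have e8 : m + 7 - 1 = m + 6 := by omega
      rw [e7] at e1' h1'
      rw [e8] at e1' e2'
      nlinarith
    · obtain rfl : a = m + 9 := by omega
      obtain rfl : b = m + 9 := by omega
      rw [e5] at e2
      nlinarith
    · obtain rfl : a = m + 11 := by omega
      obtain rfl : b = m + 8 := by omega
      rw [e6] at e2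
      nlinarith
  clear e1 e1' e2 e2' e3
  obtain rfl : a = 2 * k' - k := by omega
  obtain rfl : b = 2 * k - k' := by omega
  clear hab hab'
  interval_cases k <;> interval_cases k' <;> simp [Nat.choose] at * <;> omega

end Pool.Agent.J4H13.TL
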