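import Pool.Agent.J4H13.TL.Jobs
import Pool.Agent.J4H13.TL.Num

/-!
# The case distinction for the weighted line arrangements
-/

set_option autoImplicit false

namespace Pool.Agent.J4H13.TL

open Pool.Agent.J4H13.LA

variable {n : ℕ}

lemma co_co {w : Fin n → ℕ} (hw : IsWt w) : co (co w) = w := by
  funext i
  unfold co
  rcases hw i with h | h <;> omega

lemma isWt_co {w : Fin n → ℕ} (hw : IsWt w) : IsWt (co w) := by
  intro i
  unfold co
  rcases hw i with h | h <;> omega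

lemma co_eq_one {w : Fin n → ℕ} (hw : IsWt w) (i : Fin n) : co w i = 1 ↔ w i = 2 := by
  unfold co
  rcases hw i with h | h <;> omega

lemma co_eq_two {w : Fin n → ℕ} (hw : IsWt w) (i : Fin n) : co w i = 2 ↔ w i = 1 := by
  unfold co
  rcases hw i with h | h <;> omega

lemma nu_co_one {w : Fin n → ℕ} (hw : IsWt w) (F : Finset (Fin n)) : nu (co w) 1 F = nu w 2 F := by
  unfold nu
  simp only [co_eq_one hw]

lemma nu_co_two {w : Fin n → ℕ} (hw : IsWt w) (F : Finset (Fin n)) : nu (co w) 2 F = nu w 1 F := by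
  unfold nu
  simp only [co_eq_two hw]

lemma ty_co {Φ : Finset (Finset (Fin n))} {w : Fin n → ℕ} (hw : IsWt w) (α β : ℕ) :
    ty Φ (co w) α β = ty Φ w β α := by
  unfold ty
  simp only [nu_co_one hw, nu_co_two hw, and_comm]

lemma Sm.co {Φ : Finset (Finset (Fin n))} {w : Fin n → ℕ} (h : Sm Φ w) : Sm Φ (co w) :=
  ⟨h.ls, isWt_co h.wt, h.four⟩

lemma W_eq {w : Fin n → ℕ} (hw : IsWt w) (F : Finset (Fin n)) : W w F = nu w 1 F + 2 * nu w 2 F := by
  unfold W nu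
  rw [Finset.card_filter, Finset.card_filter, Finset.mul_sum, ← Finset.sum_add_distrib]
  refine Finset.sum_congr rfl fun i _ => ?_
  rcases hw i with h | h <;> rw [h] <;> simp

lemma W_co {w : Fin n → ℕ} (hw : IsWt w) (F : Finset (Fin n)) : W w F + W (co w) F = 3 * F.card := by
  unfold W
  rw [← Finset.sum_add_distrib, Finset.card_eq_sum_ones, Finset.mul_sum]
  refine Finset.sum_congr rfl fun i _ => ?_
  unfold co
  rcases hw i with h | h <;> omega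

lemma card_le_W {w : Fin n → ℕ} (hw : IsWt w) (F : Finset (Fin n)) : F.card ≤ W w F := by
  unfold W
  rw [Finset.card_eq_sum_ones]
  refine Finset.sum_le_sum fun i _ => ?_
  rcases hw i with h | h <;> omega

lemma W_compl (w : Fin n → ℕ) (F : Finset (Fin n)) : W w F + W w Fᶜ = ∑ i, w i := by
  unfold W
  rw [Finset.sum_add_sum_compl]

/-- small residual weight -/
lemma resid {w : Fin n → ℕ} (hw : IsWt w) {R : Finset (Fin n)} (h : W w R ≤ 3) :
    R.card ≤ 2 ∨ R.card = 3 ∧ ∀ i ∈ R, w i = 1 := by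
  have h1 := card_le_W hw R
  rcases Nat.lt_or_ge R.card 3 with h2 | h2
  · left
    omega
  · right
    refine ⟨by omega, fun i hi => ?_⟩
    by_contra hne
    have h3 : w i = 2 := (hw i).resolve_left hne
    have h4 : R.card < W w R := by
      unfold W
      rw [Finset.card_eq_sum_ones]
      refine Finset.sum_lt_sum (fun j _ => ?_) ⟨i, hi, by omega⟩
      rcases hw j with h | h <;> omega
    omega

section

variable (hCNT : S_CNT) (hFOUR : S_FOUR) (hINQ : S_INQ) (hN63 : S_N63) (hN74 : S_N74)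
  (hN44 : S_N44) (hN55 : S_N55) (hN66A : S_N66A) (hN66B : S_N66B) (hGEO9 : S_GEO9)
  (hGEO8 : S_GEO8) (hADJ : S_ADJ) (hADJ2 : S_ADJ2)

include hCNT hADJ hADJ2 in
lemma crit {k : ℕ} {l : Fin n → V3} {w : Fin n → ℕ}
    (hl : ∀ i j, i ≠ j → LinearIndependent ℂ ![l i, l j]) (hl0 : ∀ i, l i ≠ 0) (hw : IsWt w)
    (hk : ∑ i, w i = 3 * k) (hk3 : 3 ≤ k) (h1 : ∀ F ∈ pts l, W w F + 4 ≤ 3 * k)
    (hno : ¬ Adj l w k) : (k - 1).choose 2 ≤ cnt (pts l) w ∧ 3 ≤ (bad (pts l) w).card := by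
  constructor
  · by_contra hcon
    exact hno (hADJ hl hw hk3 (by omega))
  · by_contra hcon
    have h2 : ∀ i, ∃ F ∈ pts l, i ∉ F ∧ 6 ≤ W w F := by
      by_contra hcon2
      push Not at hcon2
      exact hno (hADJ2 hl hw hk3 h1 hcon2 hl0)
    exact hno (hADJ hl hw hk3 (hCNT (isLS hl) hw hk hk3 (by omega) h2))

include hADJ2 in
/-- the case `k = 2` -/
lemma case_two {k k' : ℕ} {l : Fin n → V3} {w : Fin n → ℕ} (hn : 2 ≤ n)
    (hl : ∀ i j, i ≠ j → LinearIndependent ℂ ![l i, l j]) (hl0 : ∀ i, l i ≠ 0) (hw : IsWt w)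
    (hk : ∑ i, w i = 3 * k) (hk' : ∑ i, co w i = 3 * k') (hk2 : k ≤ 2)
    (h1 : ∀ F ∈ pts l, W w F + 4 ≤ 3 * k) (h1' : ∀ F ∈ pts l, W (co w) F + 4 ≤ 3 * k') :
    3 ≤ k' ∧ Adj l (co w) k' := by
  have hLS := isLS hl
  have h2 : ∀ F ∈ pts l, F.card = 2 ∧ W w F = 2 := by
    intro F hF
    have h3 := h1 F hF
    have h4 := hLS.1 F hF
    have h5 := card_le_W hw F
    omega
  have h3 : ∀ F ∈ pts l, W (co w) F = 4 := by
    intro F hF
    have h4 := W_co hw F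
    obtain ⟨h5, h6⟩ := h2 F hF
    omega
  obtain ⟨F, hF, -, -⟩ := hLS.2.1 ⟨0, by omega⟩ ⟨1, by omega⟩ (by simp)
  have h4 : 3 ≤ k' := by
    have h5 := h1' F hF
    have h6 := h3 F hF
    omega
  refine ⟨h4, hADJ2 hl (isWt_co hw) h4 h1' ⟨⟨0, by omega⟩, fun F hF _ => ?_⟩ hl0⟩
  rw [h3 F hF]
  norm_num

lemma nu_le_of_bad {Φ : Finset (Finset (Fin n))} {w : Fin n → ℕ} :
    (bad Φ w).card ≤ nu w 2 Finset.univ := by
  classical
  unfold bad nu
  apply Finset.card_le_card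
  intro i hi
  rw [Finset.mem_filter] at hi ⊢
  exact ⟨hi.1, hi.2.1⟩

include hCNT hFOUR hINQ hN63 hN74 hN44 hN55 hN66A hN66B hGEO9 hGEO8 hADJ hADJ2 in
/-- **The case distinction.** -/
theorem comb {k k' : ℕ} {l : Fin n → V3} {w : Fin n → ℕ} (hn : 2 ≤ n)
    (hl : ∀ i j, i ≠ j → LinearIndependent ℂ ![l i, l j]) (hl0 : ∀ i, l i ≠ 0) (hw : IsWt w)
    (hk : ∑ i, w i = 3 * k) (hk' : ∑ i, co w i = 3 * k')
    (h1 : ∀ F ∈ pts l, W w F + 4 ≤ 3 * k) (h1' : ∀ F ∈ pts l, W (co w) F + 4 ≤ 3 * k') :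
    (3 ≤ k ∧ Adj l w k) ∨ (3 ≤ k' ∧ Adj l (co w) k') ∨ ConfE (pts l) w ∨ ConfE (pts l) (co w) := by
  have hw' := isWt_co hw
  have hcc := co_co hw
  rcases Nat.lt_or_ge k 3 with hk3 | hk3
  · exact Or.inr (Or.inl (case_two hADJ2 hn hl hl0 hw hk hk' (by omega) h1 h1'))
  rcases Nat.lt_or_ge k' 3 with hk3' | hk3'
  · have h2 := case_two hADJ2 hn hl hl0 hw' hk' (by rw [hcc]; exact hk) (by omega) h1'
      (by rw [hcc]; exact h1)
    rw [hcc] at h2
    exact Or.inl h2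
  by_cases hA : Adj l w k
  · exact Or.inl ⟨hk3, hA⟩
  by_cases hA' : Adj l (co w) k'
  · exact Or.inr (Or.inl ⟨hk3', hA'⟩)
  obtain ⟨c1, c2⟩ := crit hCNT hADJ hADJ2 hl hl0 hw hk hk3 h1 hA
  obtain ⟨c1', c2'⟩ := crit hCNT hADJ hADJ2 hl hl0 hw' hk' hk3' h1' hA'
  have hSm : Sm (pts l) w := ⟨isLS hl, hw, hFOUR (isLS hl) hw hk hk' h1 h1' c2 c2'⟩
  obtain ⟨i1, i2, i3, i4, i5, i6⟩ := hINQ hSm
  rw [i5] at c1
  rw [i6] at c1'
  have ha : 3 ≤ nu w 1 Finset.univ := by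
    have := nu_le_of_bad (Φ := pts l) (w := co w)
    rw [nu_co_two hw] at this
    omega
  have hb : 3 ≤ nu w 2 Finset.univ := by
    have := nu_le_of_bad (Φ := pts l) (w := w)
    omega
  have hab : nu w 1 Finset.univ + 2 * nu w 2 Finset.univ = 3 * k := by
    rw [← hk, ← W_eq hw]
    rfl
  have hab' : 2 * nu w 1 Finset.univ + nu w 2 Finset.univ = 3 * k' := by
    rw [← hk', ← nu_co_one hw, ← nu_co_two hw, add_comm, ← W_eq hw']
    rfl
  have hcnt3 : k = 3 → cnt (pts l) w = 0 := by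
    intro h3
    unfold cnt
    refine Finset.sum_eq_zero fun F hF => ?_
    have h4 := h1 F hF
    have h5 : W w F / 3 < 2 := by omega
    exact Nat.choose_eq_zero_of_lt h5
  rcases num hk3 hk3' hab hab' ha hb c1 c1' i1 i2 i3 i4 with h | h | h | h | h | h | h | h | h
  · exact Or.inr (Or.inr (Or.inl (hN63 hSm h.1 h.2.1 h.2.2.1 h.2.2.2)))
  · refine Or.inr (Or.inr (Or.inr (hN63 hSm.co ?_ ?_ ?_ ?_)))
    · rw [nu_co_one hw]
      exact h.2.1
    · rw [nu_co_two hw]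
      exact h.1
    · rw [ty_co hw]
      exact h.2.2.1
    · rw [ty_co hw, ty_co hw, ty_co hw]
      exact h.2.2.2
  · exact (hN74 hSm h.1 h.2.1 h.2.2).elim
  · refine (hN74 hSm.co ?_ ?_ ?_).elim
    · rw [nu_co_one hw]
      exact h.2.1
    · rw [nu_co_two hw]
      exact h.1
    · rw [ty_co hw]
      exact h.2.2
  · exfalso
    have h2 := hcnt3 h.2.2.1
    rw [i5] at h2
    rw [h.2.2.1, h2] at c1
    norm_num at c1
  · exact (hN44 hSm h.1 h.2.1 h.2.2.1 h.2.2.2).elim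
  · exact (hN55 hSm h.1 h.2.1 h.2.2.1 h.2.2.2).elim
  · exact (hGEO9 hl (hN66A hSm h.1 h.2.1 h.2.2.1 h.2.2.2)).elim
  · exact (hGEO8 hl (hN66B hSm h.1 h.2.1 h.2.2.1 h.2.2.2.1 h.2.2.2.2)).elim

end

end Pool.Agent.J4H13.TL
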