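import Pool.Agent.J4H13.LA.Main

/-!
# Definitions for the triple covers of the plane branched along lines
-/

set_option autoImplicit false

namespace Pool.Agent.J4H13.TL

open Pool.Agent.J4H13.LA

/-- weights in `{1, 2}` -/
def IsWt {n : ℕ} (w : Fin n → ℕ) : Prop := ∀ i, w i = 1 ∨ w i = 2

/-- the weight of a set of lines -/
def W {n : ℕ} (w : Fin n → ℕ) (F : Finset (Fin n)) : ℕ := ∑ i ∈ F, w i

/-- the complementary weights -/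
def co {n : ℕ} (w : Fin n → ℕ) : Fin n → ℕ := fun i => 3 - w i

/-- the number of the conditions for the adjoint curves -/
def cnt {n : ℕ} (Φ : Finset (Finset (Fin n))) (w : Fin n → ℕ) : ℕ := ∑ F ∈ Φ, (W w F / 3).choose 2

open scoped Classical in
/-- the bad lines -/
noncomputable def bad {n : ℕ} (Φ : Finset (Finset (Fin n))) (w : Fin n → ℕ) : Finset (Fin n) :=
  Finset.univ.filter fun i => w i = 2 ∧
    ∑ F ∈ Φ.filter (fun F => i ∈ F), (2 + 2 * (W w F % 3)) ≤ 8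

/-- the number of the lines of weight `j` in `F` -/
def nu {n : ℕ} (w : Fin n → ℕ) (j : ℕ) (F : Finset (Fin n)) : ℕ := (F.filter fun i => w i = j).card

/-- the number of the blocks with `α` lines of weight 1 and `β` lines of weight 2 -/
def ty {n : ℕ} (Φ : Finset (Finset (Fin n))) (w : Fin n → ℕ) (α β : ℕ) : ℕ :=
  (Φ.filter fun F => nu w 1 F = α ∧ nu w 2 F = β).card

/-- a linear space with blocks of size at most four -/
structure Sm {n : ℕ} (Φ : Finset (Finset (Fin n))) (w : Fin n → ℕ) : Prop where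
  ls : IsLS Φ
  wt : IsWt w
  four : ∀ F ∈ Φ, F.card ≤ 4

/-- the exceptional configuration -/
def ConfE {n : ℕ} (Φ : Finset (Finset (Fin n))) (w : Fin n → ℕ) : Prop :=
  ∃ (b c d : Fin 3 → Fin n) (V : Fin 3 → Finset (Fin n)) (F : Finset (Fin n)),
    (∀ j, w (b j) = 2 ∧ w (c j) = 1 ∧ w (d j) = 1) ∧
    Function.Bijective (Sum.elim b (Sum.elim c d)) ∧
    (∀ j, V j ∈ Φ ∧ b (j + 1) ∈ V j ∧ b (j + 2) ∈ V j ∧ c j ∈ V j ∧ d j ∈ V j ∧ b j ∉ V j) ∧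
    F ∈ Φ ∧ ∀ j, c j ∈ F

/-- nine points on three concurrent lines, and nine lines through three of these points each -/
def Conf9 {n : ℕ} (Φ : Finset (Finset (Fin n))) : Prop :=
  ∃ (b : Fin 3 → Fin n) (F : Finset (Fin n)) (P : Fin 3 → Fin 3 → Finset (Fin n))
    (c : Fin 3 → Fin 3 → Fin n) (r : Fin 3 → Fin 3 → Fin 3),
    Function.Injective b ∧ F ∈ Φ ∧ (∀ i, b i ∈ F) ∧
    (∀ i p, P i p ∈ Φ ∧ b i ∈ P i p) ∧ (∀ i, Function.Injective (P i)) ∧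
    (∀ p, Function.Injective (r p)) ∧
    (∀ p q, c p q ∈ P 0 p ∧ c p q ∈ P 1 q ∧ c p q ∈ P 2 (r p q) ∧ ∀ i, c p q ≠ b i)

/-- a transversal line of a grid -/
def Tr {n : ℕ} (Φ : Finset (Finset (Fin n))) (b b' : Fin 3 → Fin n) (ρ : Equiv.Perm (Fin 3)) :
    Prop := ∃ c : Fin n, ∀ i, ∃ P ∈ Φ, b i ∈ P ∧ b' (ρ i) ∈ P ∧ c ∈ P

/-- a grid with two even and two odd transversal lines -/
def Conf8 {n : ℕ} (Φ : Finset (Finset (Fin n))) : Prop :=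
  ∃ (b b' : Fin 3 → Fin n) (F F' : Finset (Fin n)) (σ₁ σ₂ τ₁ τ₂ : Equiv.Perm (Fin 3)),
    Function.Injective b ∧ Function.Injective b' ∧ F ∈ Φ ∧ F' ∈ Φ ∧
    (∀ i, b i ∈ F ∧ b i ∉ F') ∧ (∀ i, b' i ∈ F' ∧ b' i ∉ F) ∧
    Equiv.Perm.sign σ₁ = 1 ∧ Equiv.Perm.sign σ₂ = 1 ∧ σ₁ ≠ σ₂ ∧
    Equiv.Perm.sign τ₁ = -1 ∧ Equiv.Perm.sign τ₂ = -1 ∧ τ₁ ≠ τ₂ ∧
    Tr Φ b b' σ₁ ∧ Tr Φ b b' σ₂ ∧ Tr Φ b b' τ₁ ∧ Tr Φ b b' τ₂

/-- the adjoint curves -/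
def Adj {n : ℕ} (l : Fin n → V3) (w : Fin n → ℕ) (k : ℕ) : Prop :=
  ∃ Q : P3, Q ≠ 0 ∧ Q.IsHomogeneous (k - 3) ∧
    ∀ U : Submodule ℂ V3, Module.finrank ℂ U ≤ 2 → Q ∈ IW U ^ (W w (thr l U) / 3 - 1)

end Pool.Agent.J4H13.TL
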