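import Pool.Agent.J4H13.TL.Defs

/-!
# Eigenspaces of regular forms

`L₀` is a field between `ℂ` and `K`, and `w : K` is an element; the forms considered are `A / w • ds ∧ dU` and
`A / w • ds` with `A`, `s`, `U` in `L₀`.
-/

set_option autoImplicit false

open FF

namespace Pool.Agent.J4H13.TL

open Pool.Agent.J4H13.LA Pool.Agent.W602.GT Pool.Agent.W603.LV

variable {K : Type} [Field K] [Algebra ℂ K]

/-- there is no regular 2-form `A / w • ds ∧ dU` except `0` -/
def No2 (L₀ : IntermediateField ℂ K) (w : K) : Prop :=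
  ∀ s ∈ L₀, ∀ U ∈ L₀, ∀ A ∈ L₀,
    (∀ P : Place ℂ K, Divisorial 2 P → ∀ D₁ D₂ : Derivation ℂ K K, DerReg P D₁ → DerReg P D₂ →
      Ge P 0 (wedge D₁ D₂ s U * (A / w))) →
    ∀ D₁ D₂ : Derivation ℂ K K, wedge D₁ D₂ s U * (A / w) = 0

/-- there is no regular 1-form `A / w • ds` except `0` -/
def No1 (L₀ : IntermediateField ℂ K) (w : K) : Prop :=
  ∀ s ∈ L₀, ∀ A ∈ L₀,
    (∀ P : Place ℂ K, Divisorial 2 P → ∀ D : Derivation ℂ K K, DerReg P D →
      Ge P 0 (D s * (A / w))) →
    ∀ D : Derivation ℂ K K, D s * (A / w) = 0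

/-- there are no regular forms with the characters of `w` and `w²` -/
structure NoForms (L₀ : IntermediateField ℂ K) (w : K) : Prop where
  two_one : No2 L₀ w
  two_two : No2 L₀ (w ^ 2)
  one_one : No1 L₀ w
  one_two : No1 L₀ (w ^ 2)

lemma No2.mul {L₀ : IntermediateField ℂ K} {w g : K} (h : No2 L₀ w) (hg : g ∈ L₀) :
    No2 L₀ (g * w) := by
  intro s hs U hU A hA hreg D₁ D₂
  have h1 : A / (g * w) = A / g / w := by rw [div_div]
  rw [h1]
  refine h s hs U hU (A / g) (div_mem hA hg) ?_ D₁ D₂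
  intro P hP D₁ D₂ h₁ h₂
  rw [← h1]
  exact hreg P hP D₁ D₂ h₁ h₂

lemma No1.mul {L₀ : IntermediateField ℂ K} {w g : K} (h : No1 L₀ w) (hg : g ∈ L₀) :
    No1 L₀ (g * w) := by
  intro s hs A hA hreg D
  have h1 : A / (g * w) = A / g / w := by rw [div_div]
  rw [h1]
  refine h s hs (A / g) (div_mem hA hg) ?_ D
  intro P hP D hD
  rw [← h1]
  exact hreg P hP D hD

/-- multiplication with an element of the base field -/
lemma NoForms.mul {L₀ : IntermediateField ℂ K} {w g : K} (h : NoForms L₀ w) (hg : g ∈ L₀) :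
    NoForms L₀ (g * w) := by
  refine ⟨h.two_one.mul hg, ?_, h.one_one.mul hg, ?_⟩
  · rw [mul_pow]
    exact h.two_two.mul (pow_mem hg 2)
  · rw [mul_pow]
    exact h.one_two.mul (pow_mem hg 2)

/-- the square -/
lemma NoForms.sq {L₀ : IntermediateField ℂ K} {w : K} (h : NoForms L₀ w) (hw : w ^ 3 ∈ L₀) :
    NoForms L₀ (w ^ 2) := by
  refine ⟨h.two_two, ?_, h.one_two, ?_⟩
  · have h1 : (w ^ 2) ^ 2 = w ^ 3 * w := by ring
    rw [h1]
    exact h.two_one.mul hw
  · have h1 : (w ^ 2) ^ 2 = w ^ 3 * w := by ring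
    rw [h1]
    exact h.one_one.mul hw

/-- the inverse -/
lemma NoForms.inv {L₀ : IntermediateField ℂ K} {w : K} (h : NoForms L₀ w) (hw : w ^ 3 ∈ L₀) :
    NoForms L₀ w⁻¹ := by
  by_cases hw0 : w = 0
  · rw [hw0, inv_zero]
    rw [hw0] at h
    exact h
  have h1 := (h.sq hw).mul (inv_mem hw)
  have h2 : (w ^ 3)⁻¹ * w ^ 2 = w⁻¹ := by
    field_simp
  rwa [h2] at h1

theorem noForms_of_zero (hpg : PgZero K) (hq : QZero K) (L₀ : IntermediateField ℂ K) (w : K) :
    NoForms L₀ w := by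
  have h2 : ∀ w : K, No2 L₀ w := by
    intro w s _ U _ A _ hreg D₁ D₂
    obtain ⟨ω, hω⟩ : ∃ ω : (Fin 2 → Derivation ℂ K K) → K,
      ω = fun D => wedge (D 0) (D 1) s U * (A / w) := ⟨_, rfl⟩
    have hpluri : IsPluri 1 ω := by
      intro M D
      rw [hω]
      simp only [wedge, Fin.sum_univ_two, Derivation.add_apply, Derivation.smul_apply, smul_eq_mul,
        Matrix.det_fin_two, pow_one]
      ring
    have h1 := hpg ω hpluri (fun P hP D hD => by
      rw [hω]
      exact hreg P hP _ _ (hD 0) (hD 1)) ![D₁, D₂]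
    rw [hω] at h1
    exact h1
  have h1 : ∀ w : K, No1 L₀ w := by
    intro w s _ A _ hreg D
    obtain ⟨η, hη⟩ : ∃ η : Derivation ℂ K K →ₗ[K] K, ∀ D, η D = D s * (A / w) := by
      refine ⟨{ toFun := fun D => D s * (A / w)
                map_add' := fun D D' => by
                  simp only [Derivation.add_apply]
                  ring
                map_smul' := fun c D => by
                  simp only [Derivation.smul_apply, smul_eq_mul, RingHom.id_apply]
                  ring }, fun D => rfl⟩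
    have h3 := hq η (fun P hP D hD => by
      rw [hη]
      exact hreg P hP D hD) D
    rw [hη] at h3
    exact h3
  exact ⟨h2 _, h2 _, h1 _, h1 _⟩

end Pool.Agent.J4H13.TL
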