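import Pool.Agent.J4H13.TL.Forms

/-!
# Jobs for the project TL (triple covers of the plane branched along lines)

PROJECT TL. Theorem: Bloch's conjecture (`p_g = q = 0` implies that all points are rationally equivalent) for
ALL covers of the plane with the group `(ℤ/3)^r` branched along lines. The paper proof is complete, and the key
lemma was checked numerically for 40 million arrangements. This is the analogue of
`Pool.Agent.Results.MP_7ebcb6_ag.KummerLineCovers` (group `(ℤ/2)^r`), proved in `Pool.Agent.J4H13.LA`; many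
jobs are adaptations of the files there.

Each job: a theorem `t_X : S_X` in a file of yours, e.g. `Pool/Agent/J4H<nn>/TL/X.lean`, importing
`Pool.Agent.J4H13.TL.Jobs` (or only `TL.Defs`, `TL.Forms`, but then still state it so that `S_X` follows by `id`).
-/

set_option autoImplicit false

open FF

namespace Pool.Agent.J4H13.TL

open Pool.Agent.J4H13.LA Pool.Agent.J4H13.BC Pool.Agent.W602.GT Pool.Agent.W603.LV
  Pool.Agent.Helper397.HK

/-! ## Part 1: combinatorics of linear spaces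

`IsLS Φ` (file LA/Comb): two distinct lines are in exactly one block, the blocks have at least two lines.
A = lines of weight 1, B = lines of weight 2; `a = nu w 1 univ`, `b = nu w 2 univ`. -/

/-- JOB CNT. Proof. Put `r = W F % 3`, `f = W F / 3`. Shares: for `i ∈ F` of weight 1 let `s i F = 1` if `W F = 2`,
else `2 + r`; for `i ∈ F` of weight 2 let `s i F = 2 + 2 r`.
(1) For each block: `∑_{i ∈ F} s i F + 18 C(f,2) ≤ (W F)² - ∑_{i ∈ F} w_i²` (if `f ≥ 1`: the difference is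
`3 r (f-1)`; use `2(a+b) + (a + 4b) = 3(a+2b)`; `W F = 2`: both are `2`).
(2) `∑_F ((W F)² - ∑_{i∈F} w_i²) = (∑ w)² - ∑ w_i² = 9k² - a - 4b` (each ordered pair is in exactly one block;
cf. `IsLS.card_pairs`), and `a + 2b = 3k`.
(3) For each line `i`: `∑_{F ∋ i} (W F - w i) = 3k - w i` (cf. `IsLS.card_through`). For `w i = 1`: `s i F ≡ W F - 1`
mod 3, so `S_i = ∑_{F ∋ i} s i F ≡ 2` mod 3, and `S_i ≥ 6` (the lines of the block `F₀` with `W F₀ ≥ 6`, `i ∉ F₀`,
are in different blocks through `i`; the block through `i` and `j ∈ F₀` has `s i F ≥ w j`), so `S_i ≥ 8`. For `w i = 2`: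
`s i F` is even and `≡ -(W F - 2)` mod 3, so `S_i ≡ 2` mod 6, and `S_i ≥ 2·3` (`F₀` has at least 3 lines), so `S_i ≥ 8`,
and `S_i ≥ 14` if `i` is not bad.
(4) So `8a + 14b - 12 ≤ ∑ S_i ≤ 9k² - a - 4b - 18 cnt`, i.e. `18 cnt ≤ 9k² - 27k + 12 < 9(k-1)(k-2)`. -/
def S_CNT : Prop := ∀ {n k : ℕ} {Φ : Finset (Finset (Fin n))} {w : Fin n → ℕ}, IsLS Φ → IsWt w →
  ∑ i, w i = 3 * k → 3 ≤ k → (bad Φ w).card ≤ 2 → (∀ i, ∃ F ∈ Φ, i ∉ F ∧ 6 ≤ W w F) →
  cnt Φ w < (k - 1).choose 2

/-- JOB FOUR. Proof. A bad line (for `w` or for `co w`) lies in at most 4 blocks, as each block through it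
contributes at least 2. `bad Φ w` and `bad Φ (co w)` are disjoint (weights 2 and 1), so there are at least 6 bad lines.
Let `P` be a block with at least 5 lines. A line `i ∉ P` lies in at least 5 blocks, so all the bad lines are in `P`.
Let `R` be the complement of `P` and `ρ = |R|`. `W_R ≥ 4` and `W'_R ≥ 4` (`W' = W (co w)`), sum `3ρ`, so `ρ ≥ 3`.
Each bad line `i` (it is in `P`) gives a partition of `R` into at most 3 classes (`F \ {i}`, `F` a block through `i`,
`F ≠ P`); a pair of `R` is in a class of at most one `i` (its block meets `P` in at most one line).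
(i) `ρ ≥ 5`: a partition of `ρ` elements into at most 3 classes has at least `ρ (ρ-3) / 6` pairs inside the
classes (Cauchy–Schwarz: `∑ c_i² ≥ ρ²/3`); so `6 · ρ(ρ-3)/6 ≤ ρ(ρ-1)/2`, i.e. `ρ ≤ 5`; for `ρ = 5` at least 2 pairs per
line: `12 ≤ 10`, a contradiction.
(ii) `ρ = 4`: at least one pair per line, 6 pairs in total, so each of the bad lines has exactly one pair and
exactly the 4 blocks `P`, `{i,x,y}`, `{i,z}`, `{i,t}`. For `i ∈ bad Φ w`: the sum `∑ (2 + 2 (W F % 3)) ≤ 8` forces `3 ∣ W F` for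
all four, so `w z = w t = 1` and `w x = w y = 2`: `{x,y}` is the set of the lines of weight 2 in `R`. The second
line of `bad Φ w` gives the same pair, a contradiction.
(iii) `ρ = 3`: `W_R ∈ {4, 5}`, so both weights occur in `R`. If a bad line `i` of weight 2 had only blocks
`{i,x}`, `{i,y}`, `{i,z}`, `P`, then as in (ii) all `W F` are divisible by 3 and `x, y, z` have weight 1, a contradiction;
similarly for `bad Φ (co w)`. So each of the at least 6 bad lines has a pair of `R` inside a class, but there are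
only 3 pairs. -/
def S_FOUR : Prop := ∀ {n k k' : ℕ} {Φ : Finset (Finset (Fin n))} {w : Fin n → ℕ}, IsLS Φ → IsWt w →
  ∑ i, w i = 3 * k → ∑ i, co w i = 3 * k' →
  (∀ F ∈ Φ, W w F + 4 ≤ 3 * k) → (∀ F ∈ Φ, W (co w) F + 4 ≤ 3 * k') →
  3 ≤ (bad Φ w).card → 3 ≤ (bad Φ (co w)).card → ∀ F ∈ Φ, F.card ≤ 4

/-- JOB INQ (six inequalities for linear spaces with blocks of size at most 4). Proof: 1, 2: count the pairs of
lines of weight 2 (resp. 1) in blocks. 3, 4: for a line `i` of weight 2, the blocks of type (2,2) through `i` contain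
disjoint pairs of lines of weight 1, so there are at most `a / 2` such blocks; each block of type (2,2) has
exactly two lines of weight 2. 5, 6: the blocks with `W F ≥ 6` and at most 4 lines have the types (2,2), (0,3),
(1,3), (0,4), and `W F ≤ 8`, so `C(W F / 3, 2) = 1`. -/
def S_INQ : Prop := ∀ {n : ℕ} {Φ : Finset (Finset (Fin n))} {w : Fin n → ℕ}, Sm Φ w →
  ty Φ w 2 2 + 3 * (ty Φ w 0 3 + ty Φ w 1 3) + 6 * ty Φ w 0 4 ≤ (nu w 2 Finset.univ).choose 2 ∧
  ty Φ w 2 2 + 3 * (ty Φ w 3 0 + ty Φ w 3 1) + 6 * ty Φ w 4 0 ≤ (nu w 1 Finset.univ).choose 2 ∧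
  2 * ty Φ w 2 2 ≤ nu w 2 Finset.univ * (nu w 1 Finset.univ / 2) ∧
  2 * ty Φ w 2 2 ≤ nu w 1 Finset.univ * (nu w 2 Finset.univ / 2) ∧
  cnt Φ w = ty Φ w 2 2 + (ty Φ w 0 3 + ty Φ w 1 3) + ty Φ w 0 4 ∧
  cnt Φ (co w) = ty Φ w 2 2 + (ty Φ w 3 0 + ty Φ w 3 1) + ty Φ w 4 0

/-- JOB N63. Six lines of weight 1, three lines `b₀, b₁, b₂` of weight 2, 3 blocks of type (2,2). Proof. The pairs of
weight 2 of the blocks of type (2,2) are the three pairs, so `V_j = {b_{j+1}, b_{j+2}, c_j, d_j}`. `V_j ∩ V_k` has at most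
one line, which is a `b`; so the `c_j, d_j` are 6 different lines: all the lines of weight 1. A block with
at least 3 lines of weight 1 contains at most one of `c_j`, `d_j` for each `j` (the block through both is `V_j`), so it has
exactly three, one from each pair: rename them as `c_j`. -/
def S_N63 : Prop := ∀ {n : ℕ} {Φ : Finset (Finset (Fin n))} {w : Fin n → ℕ}, Sm Φ w →
  nu w 1 Finset.univ = 6 → nu w 2 Finset.univ = 3 → ty Φ w 2 2 = 3 →
  1 ≤ ty Φ w 3 0 + ty Φ w 3 1 + ty Φ w 4 0 → ConfE Φ w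

/-- JOB N74. Proof. Call the blocks of type (2,2) special; each has two lines of weight 2 and different special
blocks have different such pairs, so all the 6 pairs of `B` (4 elements) occur. If a line `c` of weight 1 is in two
special blocks, their pairs are disjoint, so `c` is in at most 2 special blocks, and then their pairs
form one of the 3 partitions of `B` into two pairs; two such lines with the same partition would be in two common
blocks. So at most 3 of the 7 lines of weight 1 are in 2 special blocks: `12 = 2·6 ≤ 7 + 3 = 10`, a contradiction. -/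
def S_N74 : Prop := ∀ {n : ℕ} {Φ : Finset (Finset (Fin n))} {w : Fin n → ℕ}, Sm Φ w →
  nu w 1 Finset.univ = 7 → nu w 2 Finset.univ = 4 → ty Φ w 2 2 = 6 → False

/-- JOB N44. Proof. `x = ty 2 2`. A special block (type (2,2)) gives a pair of `B` (4 elements) and a pair of `A` (4
elements). Different special blocks have different pairs, and if the `B`-pairs meet, the `A`-pairs are disjoint, i.e.
complementary (and vice versa). So there are no three special blocks with `B`-pairs `e₁, e₂, e₃`, `e₂` meeting both `e₁`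
and `e₃` (then the `A`-pairs of `e₁`, `e₃` are equal). Three different pairs of a set of 4 elements always contain such a
configuration. So `x ≤ 2`. By the first inequality of INQ (`x + 3Y + 6u ≤ 6`, `x + Y + u ≥ 3`) `x = 2` and `Y = 1`, `u = 0`: there is a
block with exactly 3 lines of weight 2, `B = T ∪ {b₄}`. The `B`-pairs of the two special blocks are not inside `T`, so both
special blocks contain `b₄`. In the same way both contain the line `a₄` of weight 1, a contradiction. -/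
def S_N44 : Prop := ∀ {n : ℕ} {Φ : Finset (Finset (Fin n))} {w : Fin n → ℕ}, Sm Φ w →
  nu w 1 Finset.univ = 4 → nu w 2 Finset.univ = 4 →
  3 ≤ ty Φ w 2 2 + (ty Φ w 0 3 + ty Φ w 1 3) + ty Φ w 0 4 →
  3 ≤ ty Φ w 2 2 + (ty Φ w 3 0 + ty Φ w 3 1) + ty Φ w 4 0 → False

/-- JOB N55. Proof. From INQ: `x + 3Y + 6u ≤ 10`, `x + Y + u ≥ 6`, `x ≤ 5`; so (x = 5, Y = 1, u = 0) or (x = 4, Y = 2, u = 0); the
same for `Y', u'`. Graph on `B` (5 elements): the pairs of the special blocks. Each vertex has degree at most 2 (the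
`A`-pairs of the special blocks through it are disjoint in a set of 5 elements). `x = 5`: all degrees are 2, and there
is a triple `T` without edges (the block with 3 lines of weight 2): 6 edge ends at `T` go to the two other vertices,
whose degree is 2: `6 ≤ 4`, a contradiction. `x = 4`, `Y = 2`: the two triples share exactly one element
`b₀` (two blocks share at most one line; 5 elements), `{b₀,b₁,b₂}`, `{b₀,b₃,b₄}`; the pairs not inside a triple are the four
pairs `{b_i, b_j}`, `i ∈ {1,2}`, `j ∈ {3,4}`: these are the 4 special pairs. The same for `A`: `{a_i, a_j}`, `i ∈ {1,2}`,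
`j ∈ {3,4}`. The `A`-pairs of `b₁b₃` and of `b₁b₄` are disjoint, and the `A`-pairs of `b₁b₄` and `b₂b₄` are disjoint. Among the four
`A`-pairs each is disjoint from exactly one other. So `b₁b₃` and `b₂b₄` have the same `A`-pair, a contradiction. -/
def S_N55 : Prop := ∀ {n : ℕ} {Φ : Finset (Finset (Fin n))} {w : Fin n → ℕ}, Sm Φ w →
  nu w 1 Finset.univ = 5 → nu w 2 Finset.univ = 5 →
  6 ≤ ty Φ w 2 2 + (ty Φ w 0 3 + ty Φ w 1 3) + ty Φ w 0 4 →
  6 ≤ ty Φ w 2 2 + (ty Φ w 3 0 + ty Φ w 3 1) + ty Φ w 4 0 → False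

/-- JOB N66A. Proof. 9 special blocks (type (2,2)), 36 pairs (line of weight 1, line of weight 2): each such pair is in exactly
one special block; so each line is in exactly 3 special blocks, and no other block contains lines of both weights.
(`ty 0 4 = 0`: the 4 lines of such a block would have only the other two lines of weight 2 as partners in special
blocks, but each has 3 partners.) So there is a block `F` with exactly three lines `b 0, b 1, b 2` of weight 2; their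
partners are all among the other three lines of weight 2. `P i p` (`p : Fin 3`): the three special blocks through `b i`.
Each of the 9 lines `c ∉ {b 0, b 1, b 2}` is in exactly one special block with each `b i`: if it has weight 1 by the above, if
it has weight 2 since it is a partner of `b i`. So `c ↦ (p, q)` with `c ∈ P 0 p`, `c ∈ P 1 q` is injective (two blocks share at most
one line), hence bijective; `r p q` is the index with `c ∈ P 2 (r p q)`; `r p` is injective, as for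
`r p q = r p q'` the lines `c p q`, `c p q'` are both in `P 0 p` and `P 2 r`, so they are equal. -/
def S_N66A : Prop := ∀ {n : ℕ} {Φ : Finset (Finset (Fin n))} {w : Fin n → ℕ}, Sm Φ w →
  nu w 1 Finset.univ = 6 → nu w 2 Finset.univ = 6 → ty Φ w 2 2 = 9 →
  1 ≤ (ty Φ w 0 3 + ty Φ w 1 3) + ty Φ w 0 4 → Conf9 Φ

/-- JOB N66B. Proof. Graph on `B` (6 elements): the pairs of the 8 special blocks; each vertex has degree at most 3
(the `A`-pairs of the special blocks through it are disjoint). Two blocks `F, F'` with exactly 3 lines of weight 2 each; they share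
at most one line. If their `B`-triples share a line: `{0,1,2}`, `{0,3,4}`, the sixth vertex 5 has degree at most 3, and the
other edges are among the 4 pairs `13, 14, 23, 24` and `05`: in total at most `4 + 3 = 7 < 8` edges, a contradiction. So
the triples `b`, `b'` are disjoint and the 8 edges are all the pairs `(b i, b' j)` except one, `(i₀, j₀)`. In the same
way for `A`: triples `α`, `α'`, and the 8 `A`-pairs are all `(α p, α' q)` except one, `(p₀, q₀)`. A line `α p` with `p ≠ p₀` is in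
three special blocks, with pairwise disjoint `B`-pairs `(b i, b' (ρ i))`: this defines a permutation `ρ = ρ_p`; the same for `α' q`,
`q ≠ q₀`: `ρ'_q`. The two lines `α p`, `p ≠ p₀`, are not together in a special block, so the permutations `ρ_p` have no common
point; two permutations of `Fin 3` without a common point are different and have the same sign. The same for
`ρ'_q`. For `p ≠ p₀`, `q ≠ q₀`, the lines `α p`, `α' q` are in one common special block and in no other: so `ρ_p` and `ρ'_q`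
have exactly one common point, hence opposite signs. -/
def S_N66B : Prop := ∀ {n : ℕ} {Φ : Finset (Finset (Fin n))} {w : Fin n → ℕ}, Sm Φ w →
  nu w 1 Finset.univ = 6 → nu w 2 Finset.univ = 6 → ty Φ w 2 2 = 8 →
  ty Φ w 0 3 + ty Φ w 1 3 = 2 → ty Φ w 3 0 + ty Φ w 3 1 = 2 → Conf8 Φ

/-! ## Part 2: geometry of line arrangements (`pts l` of LA/Key2 is the set of blocks of the arrangement) -/

/-- JOB GEO9. Proof. Blocks of `pts l` are `thr l U` with `U = pt l i j` of dimension 2. Let `U` be the plane of `F`, basis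
`e₀ = l (b 0)`, `e₁ = l (b 1)` of `U`, `l (b 2) = α e₀ + β e₁`, `α, β ≠ 0`, and `e₂ ∉ U`. `P i p ≠ F` (else `c p q ∈ F`
and in a block `P 1 q ≠ F`, so `c p q = b 1`). The plane of `P 0 p` is spanned by `e₀` and `e₂ + s_p e₁`, the plane of `P 1 q` by `e₁` and
`e₂ + t_q e₀`, the plane of `P 2 r` by `α e₀ + β e₁` and `e₂ + m_r e₀`. So `l (c p q)` is a multiple of `e₂ + s_p e₁ + t_q e₀`, and
it is in the plane of `P 2 (r p q)`: `t_q - (α / β) s_p = m_{r p q}`. Sum over `q`: `3 (α/β) s_p = ∑ t - ∑ m` does not depend on `p`;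
so `P 0 p` does not depend on `p`, a contradiction. -/
def S_GEO9 : Prop := ∀ {n : ℕ} {l : Fin n → V3}, (∀ i j, i ≠ j → LinearIndependent ℂ ![l i, l j]) →
  ¬ Conf9 (pts l)

/-- JOB GEO8. Proof. Let `U`, `U'` be the planes of `F`, `F'`; `U ∩ U'` is spanned by a vector `h`; `l (b i) ∉ U'`, `l (b' j) ∉ U`. So
`U = ⟨X, h⟩`, `U' = ⟨Y, h⟩`, `X, Y, h` is a basis, and after scaling `l (b i) = X + x_i h`, `l (b' j) = Y + y_j h` with `x_i` distinct and
`y_j` distinct. For a transversal line `c` of the permutation `ρ`: `l c = α X + β Y + γ h` with `γ = α x_i + β y_{ρ i}` for `i = 0, 1, 2`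
(as `l c` is in the plane of `b i`, `b' (ρ i)`), `(α, β) ≠ 0`; so `D(ρ) = ∑ λ_i y_{ρ i} = 0`, where `λ₀ = x₁ - x₂`, `λ₁ = x₂ - x₀`,
`λ₂ = x₀ - x₁` (`β ≠ 0` as the `x_i` are distinct). The sum of `D(ρ)` over the three even (odd) permutations is
`(∑ λ_i)(∑ y_j) = 0`; so `D(ρ) = 0` for all 6 permutations. `D(ρ) - D(ρ ∘ (0 1)) = (λ₀ - λ₁)(y_{ρ 0} - y_{ρ 1})`; so `λ₀ = λ₁ = λ₂`, and the
sum is 0: a contradiction. -/
def S_GEO8 : Prop := ∀ {n : ℕ} {l : Fin n → V3}, (∀ i j, i ≠ j → LinearIndependent ℂ ![l i, l j]) →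
  ¬ Conf8 (pts l)

/-- JOB ADJ (existence of adjoint curves by counting). Proof: the first branch of `LA.key` (file LA/Key2): replace
`card / 2` by `W w F / 3` and `d` by `k`. -/
def S_ADJ : Prop := ∀ {n k : ℕ} {l : Fin n → V3} {w : Fin n → ℕ},
  (∀ i j, i ≠ j → LinearIndependent ℂ ![l i, l j]) → IsWt w → 3 ≤ k →
  cnt (pts l) w < (k - 1).choose 2 → Adj l w k

/-- JOB ADJ2. Proof: the second branch of `LA.key`: `Q = lin (l i) ^ (k - 3)`; the blocks not containing `i` have `W < 6`.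
(If `thr l U` has at most one line, its weight is at most 2; else it is in `pts l`.) -/
def S_ADJ2 : Prop := ∀ {n k : ℕ} {l : Fin n → V3} {w : Fin n → ℕ},
  (∀ i j, i ≠ j → LinearIndependent ℂ ![l i, l j]) → IsWt w → 3 ≤ k →
  (∀ F ∈ pts l, W w F + 4 ≤ 3 * k) → (∃ i, ∀ F ∈ pts l, i ∉ F → W w F < 6) → (∀ i, l i ≠ 0) →
  Adj l w k

/-! ## Part 3: differential forms and rationality -/

/-- JOB REG. Proof: as `LA.reg_two` (file LA/RegTwoB). With `u = c ^ k * v`: `3 ord u = ∑ w_i ord (ev z (l i))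
≤ W α + 2 (β - α)` (`W = W w (thr l (WP P z))`, at most one line has order `β`, its weight is at most 2); the form
has order at least `α + β - 1 + (f - 1) α - ord u` (`f = W / 3`, truncated subtraction), and
`3 (α + β + (f-1) α) - W α - 2 (β - α)` is `≥ β > 0` for `f ≥ 1`, and `≥ 3 α + β > 0` for `f = 0` (`W ≤ 2`). -/
def S_REG : Prop := ∀ {K : Type} [Field K] [Algebra ℂ K] {x y : K},
  AlgebraicIndependent ℂ ![x, y] → ∀ {n k : ℕ} {l : Fin n → V3} {w : Fin n → ℕ}, 2 ≤ n →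
  (∀ i j, i ≠ j → LinearIndependent ℂ ![l i, l j]) → IsWt w → ∑ i, w i = 3 * k → 3 ≤ k →
  ∀ {v : K}, v ≠ 0 → v ^ 3 = ∏ i, ev (gp x y) (l i) ^ w i → ∀ {Q : P3}, Q.IsHomogeneous (k - 3) →
  (∀ U : Submodule ℂ V3, Module.finrank ℂ U ≤ 2 → Q ∈ IW U ^ (W w (thr l U) / 3 - 1)) →
  ∀ (P : Place ℂ K) {D₁ D₂ : Derivation ℂ K K}, DerReg P D₁ → DerReg P D₂ →
    Ge P 0 (wedge D₁ D₂ x y * (MvPolynomial.aeval (gp x y) Q / v))

/-- JOB RED (removing cubes from a polynomial). Proof: `f` splits; the exponent of each root mod 3. -/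
def S_RED : Prop := ∀ {f : Polynomial ℂ}, f ≠ 0 → ∃ (S₁ S₂ : Finset ℂ) (g : Polynomial ℂ),
  Disjoint S₁ S₂ ∧ g ≠ 0 ∧ f = g ^ 3 * ((∏ a ∈ S₁, (Polynomial.X - Polynomial.C a)) *
    (∏ a ∈ S₂, (Polynomial.X - Polynomial.C a)) ^ 2)

/-- JOB R1 (regularity of a 1-form on the curve `y³ = ∏_{S₁} (s - a) ∏_{S₂} (s - a)²`). Proof. Let `P` be a place, `D`
regular. If `ord s < 0`, `m = -ord s`: `ord (D s) ≥ -m - 1`, `ord (∏_{S₂}) = -|S₂| m`, `3 ord y = -(|S₁| + 2|S₂|) m`; the order of the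
form is at least `-m - 1 - |S₂| m + 2(|S₁| + 2|S₂|) m/3 > -1` as `2|S₁| + |S₂| ≥ 4`. If `ord (s - a) = m > 0` for `a ∈ S₁`: the other factors are
units, `3 ord y = m`, order at least `m - 1 - 2m/3 > -1`. For `a ∈ S₂`: `m - 1 + m - 4m/3 > -1`. Otherwise all factors
are units. (Tools: LA/Ord: `ge_D`, `ge_logd`; compare LA/RegOne.) -/
def S_R1 : Prop := ∀ {K : Type} [Field K] [Algebra ℂ K] {s : K}, Transcendental ℂ s →
  ∀ {S₁ S₂ : Finset ℂ}, Disjoint S₁ S₂ → 4 ≤ 2 * S₁.card + S₂.card →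
  ∀ {y : K}, y ^ 3 = (∏ a ∈ S₁, (s - algebraMap ℂ K a)) * (∏ a ∈ S₂, (s - algebraMap ℂ K a)) ^ 2 →
  ∀ (P : Place ℂ K) {D : Derivation ℂ K K}, DerReg P D →
    Ge P 0 (D s * ((∏ a ∈ S₂, (s - algebraMap ℂ K a)) / y ^ 2))

/-- JOB R2 (regularity of a 2-form on `y³ = ∏_{S₁} (s - a) ∏_{S₂} (s - a)² U (1 - U)`). Proof. The order of the form is an
integer, and it is at least `-1 + (contribution of s) + (contribution of U)` where both contributions are
`≥ 0` and one is `> 0`, or `≥ 0` without the `-1` if both `s` and `U` are as in the first case. Contribution of `s`: `0` if `s` is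
regular and all `s - a` (`a ∈ S₁ ∪ S₂`) are units; `m / 3` if `ord (s - a) = m > 0`, `a ∈ S₁`; `2m/3` if `a ∈ S₂`;
`m (-1 - |S₂| + 2(|S₁| + 2|S₂|)/3) > 0` if `ord s = -m < 0`. Contribution of `U`: `0` if `U` is regular and `U`, `1 - U` are units;
`t / 3` if `ord U = t > 0` or `ord (1 - U) = t > 0` or `ord U = -t < 0`. The wedge product is estimated by `log_det`, `ge_wedge` (LA/Ord) with
`s - a` or `s` and with `U` or `1 - U`: `wedge D₁ D₂ s U = wedge D₁ D₂ (s - a) U = - wedge D₁ D₂ (s - a) (1 - U)`; if `s` (or `U`) is as in the first case,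
`D s` is regular and `ge_D` is enough. -/
def S_R2 : Prop := ∀ {K : Type} [Field K] [Algebra ℂ K] {s U : K}, AlgebraicIndependent ℂ ![s, U] →
  ∀ {S₁ S₂ : Finset ℂ}, Disjoint S₁ S₂ → 4 ≤ 2 * S₁.card + S₂.card →
  ∀ {y : K}, y ^ 3 = (∏ a ∈ S₁, (s - algebraMap ℂ K a)) * (∏ a ∈ S₂, (s - algebraMap ℂ K a)) ^ 2 *
    (U * (1 - U)) →
  ∀ (P : Place ℂ K) {D₁ D₂ : Derivation ℂ K K}, DerReg P D₁ → DerReg P D₂ →
    Ge P 0 (wedge D₁ D₂ s U * ((∏ a ∈ S₂, (s - algebraMap ℂ K a)) / y ^ 2))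

/-- JOB CUR (curves). Proof. By RED and scaling with `g (s)`, `y³ = ∏_{S₁} (s - a) ∏_{S₂} (s - a)²`; let `n_i = |S_i|`. (`Good s u y` only
needs `L = ℂ(τ, u)` with `s, y ∈ L`, use `LA.embed_of_two`.) If `2 n₁ + n₂ ≥ 4`: R1 and `No1 L₀ (y²)`, with
`A = ∏_{S₂} (s - a)`, give `D s * (A / y²) = 0` for all `D`, a contradiction with `D s = 1` (`LA.exists_ders`). If
`2 n₂ + n₁ ≥ 4`: `y' = ∏_{S₁} ∏_{S₂} (s - a) / y` has the roles of `S₁`, `S₂` exchanged (use `NoForms.inv`, `NoForms.mul`). Otherwise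
`n₁, n₂ ≤ 1`: (0,0): `y³ = 1`, so `y` is a constant, `τ = s`; (1,0): `τ = y`; (0,1): `τ = (s - a) / y`, `s - a = τ³`, `y = τ²`; (1,1): `τ = y / (s - a₂)`,
`τ³ = (s - a₁)/(s - a₂)`, so `s ∈ ℂ(τ)`. -/
def S_CUR : Prop := ∀ {K : Type} [Field K] [Algebra ℂ K] {s u : K}, AlgebraicIndependent ℂ ![s, u] →
  ∀ {L₀ : IntermediateField ℂ K}, s ∈ L₀ → u ∈ L₀ → ∀ {f : Polynomial ℂ}, f ≠ 0 →
  ∀ {y : K}, NoForms L₀ y → y ^ 3 = Polynomial.aeval s f → Good s u y

/-- JOB LS (Lemma S). Proof. By RED and scaling, `y³ = ∏_{S₁} (s - a) ∏_{S₂} (s - a)² U (1 - U)`, `n_i = |S_i|`. If `2 n₁ + n₂ ≥ 4`: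
contradiction from R2 and `No2 L₀ (y²)` with `A = ∏_{S₂} (s - a)`. Otherwise (n₁,n₂) is one of: (0,0): `y³ = U (1 - U)`; the form
`D U / y²` is regular: apply R1 to `s := U`, `S₁ = {0, 1}`, `S₂ = ∅` and `-y`: contradiction from `No1 L₀ (y²)`. (1,0): `s ∈ ℂ(U, y)`. (0,1): with
`y' = y / (s - a)`: `y'³ (s - a) = U (1 - U)`, `s ∈ ℂ(U, y')`. (1,1): `y' = y / (s - a₂)`, `y'³ (s - a₂) = (s - a₁) U (1 - U)`, `s ∈ ℂ(U, y')`
(the coefficient `y'³ - U(1-U)` is not 0, otherwise `a₁ = a₂`). (0,2): `y' = y / ((s - a₁)(s - a₂))`, `τ = U / (s - a₁)`: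
`y'³ (s - a₂) = τ (1 - τ (s - a₁))`, linear in `s`: `s ∈ ℂ(y', τ)`, `U = τ (s - a₁)`. (0,3): `y' = y / ((s - a₁)(s - a₂))`, `τ = U (s - a₃) / (s - a₁)`:
`y'³ (s - a₂) = τ (s - a₃) - τ² (s - a₁)`, linear in `s`. In all cases `LA.embed_of_two` gives `Good s U y`. The coefficient of
`s` in the linear equations is not 0, because otherwise also the constant term is 0, and then one gets a contradiction with the
algebraic independence of `s`, `U` or with `a_i ≠ a_j`. -/
def S_LS : Prop := ∀ {K : Type} [Field K] [Algebra ℂ K] {s U : K}, AlgebraicIndependent ℂ ![s, U] →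
  ∀ {L₀ : IntermediateField ℂ K}, s ∈ L₀ → U ∈ L₀ → ∀ {f : Polynomial ℂ}, f ≠ 0 →
  ∀ {y : K}, NoForms L₀ y → y ^ 3 = Polynomial.aeval s f * (U * (1 - U)) → Good s U y

/-- JOB PEN (pencils; use CUR and LS as hypotheses `S_CUR → S_LS → S_PEN`). Proof. Let `g_i = u - λ_i(s)`. `m = 0`: CUR.
`m = 1`: `w = 1`: `u = λ(s) + v³ / f(s) ∈ ℂ(s, v)`; `w = 2`: `τ = v / g`, `g = f(s) / τ³`, `v = τ g`, `L = ℂ(s, τ)`. `m = 2`, weights 1, 2:
`τ = v / g₂`, `τ³ (u - λ₂) = f(s) (u - λ₁)`, so `u ∈ ℂ(s, τ)`. `m = 2`, weights (1,1): `U = g₁ / δ`, `1 - U = - g₂ / δ`, `δ = g₁ - g₂ = λ₂(s) - λ₁(s) ≠ 0`: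
`v³ = - f(s) δ² U (1 - U)`, `- f δ²` is a polynomial in `s`; apply LS to `s`, `U`, `y = v`; `u ∈ ℂ(s, U)`. Weights (2,2): put `v₁ = f(s) g₁ g₂ / v`; then
`v₁³ = f(s)² g₁ g₂`: reduce to (1,1) (`NoForms.inv`, `NoForms.mul`). `m = 3`, weights (1,1,1):
`U = g₁ (λ₂ - λ₃) / (g₃ (λ₂ - λ₁))`, `1 - U = g₂ (λ₁ - λ₃) / (g₃ (λ₁ - λ₂))`, so `g₁ g₂ = - g₃² U (1 - U) (λ₁ - λ₂)² / ((λ₂ - λ₃)(λ₁ - λ₃))`; with
`y = v (λ₂ - λ₃)(λ₁ - λ₃) / g₃`: `y³ = - f(s) (λ₁ - λ₂)² (λ₂ - λ₃)² (λ₁ - λ₃)² U (1 - U)`. Apply LS. `u ∈ ℂ(s, U)`, `g₃ ∈ ℂ(s, U)`. Weights (2,2,2):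
`v₁ = f(s) g₁ g₂ g₃ / v`. `s, U` are algebraically independent: `LA.algInd_of_mem`. -/
def S_PEN : Prop := ∀ {K : Type} [Field K] [Algebra ℂ K] {s u : K}, AlgebraicIndependent ℂ ![s, u] →
  ∀ {L₀ : IntermediateField ℂ K}, s ∈ L₀ → u ∈ L₀ → ∀ {f : Polynomial ℂ}, f ≠ 0 →
  ∀ {m : ℕ} {lam : Fin m → Polynomial ℂ} {w : Fin m → ℕ}, Function.Injective lam → IsWt w →
  (m ≤ 2 ∨ m = 3 ∧ ∃ e, ∀ i, w i = e) →
  ∀ {v : K}, NoForms L₀ v →
  v ^ 3 = Polynomial.aeval s f * ∏ i, (u - Polynomial.aeval s (lam i)) ^ w i → Good s u v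

/-- JOB LIN (pencils of lines; `S_PEN → S_LIN`). Proof. If `thr l U` has at most one line, `n ≤ 4`; then replace `U` by `pt l i j` for
two lines (the complement has at most 2 lines). So `U = pt l i j = ⟨m₀, m₁⟩`, `m₀ = l i`, `m₁ = l j`; basis `m₀, m₁, m₂`. Put
`s = ev m₁ / ev m₀`, `u = ev m₂ / ev m₀`. For a line in `thr l U`: `ev (l) = ev m₀ * (α + β s)`; for the other lines
`ev (l) = ev m₀ * γ (u - λ(s))`, `γ ≠ 0`, `λ` of degree at most 1, and the `λ` are different as the lines are not proportional. So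
`v₁ = v / (ev m₀)^k` has the equation of PEN. `LA.lin_mem`: `x, y ∈ L`, `ev m₀ ∈ L` if `s, u ∈ L`. (Compare LA/Main `good_lines` and LA/Rat.) -/
def S_LIN : Prop := ∀ {K : Type} [Field K] [Algebra ℂ K] {x y : K}, AlgebraicIndependent ℂ ![x, y] →
  ∀ {L₀ : IntermediateField ℂ K}, x ∈ L₀ → y ∈ L₀ →
  ∀ {n k : ℕ} {l : Fin n → V3} {w : Fin n → ℕ}, 2 ≤ n →
  (∀ i j, i ≠ j → LinearIndependent ℂ ![l i, l j]) → IsWt w → ∑ i, w i = 3 * k →
  ∀ {v : K}, NoForms L₀ v → v ^ 3 = ∏ i, ev (gp x y) (l i) ^ w i →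
  ∀ {U : Submodule ℂ V3}, Module.finrank ℂ U ≤ 2 →
  ((thr l U)ᶜ.card ≤ 2 ∨ (thr l U)ᶜ.card = 3 ∧ ∃ e, ∀ i ∉ thr l U, w i = e) → Good x y v

/-- JOB EXC (the exceptional configuration; `S_LIN → S_EXC`). Proof. `e_j = l (b j)` is a basis of `V3` (`b 0 ∉ V 0`, and
`b 1, b 2` are in `V 0`); `z_j = ev (gp x y) (l (b j))`. `l (c j) = α_j e_{j+1} + β_j e_{j+2}` with `α_j, β_j ≠ 0`,
`l (d j) = α'_j e_{j+1} + β'_j e_{j+2}`. Put `x' = z₀ / z₁`, `y' = z₀ / z₂` (algebraically independent, `x, y ∈ ℂ(x', y')` by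
`LA.lin_mem`), so `gp x' y' = z₀ (1/z₀, 1/z₁, 1/z₂)`. The six lines `l'`: the vectors `c'_j` with the coordinates `β_j` at
`j + 1` and `α_j` at `j + 2`, and `d'_j` in the same way: `ev (gp x' y') c'_j = z₀ ev (l (c j)) / (z_{j+1} z_{j+2})`. They are pairwise
independent. `v'' = v z₀² / (z₀ z₁ z₂)²` satisfies `v''³ = ∏_j ev c'_j ev d'_j`. The lines `c j` are in one block, so
`l (c j) = ∑ ...` vanish at a common point `p` (all `p_i ≠ 0`) in the dual basis; so `c'_0, c'_1, c'_2` vanish at `(1/p_i)`: they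
are in a `U'` of dimension 2. Apply LIN with `n = 6`, all weights 1, `k = 2`, to `c'_j, d'_j` and `U'` (the complement of
`thr l' U'` has at most 3 lines, all of weight 1). -/
def S_EXC : Prop := ∀ {K : Type} [Field K] [Algebra ℂ K] {x y : K}, AlgebraicIndependent ℂ ![x, y] →
  ∀ {L₀ : IntermediateField ℂ K}, x ∈ L₀ → y ∈ L₀ →
  ∀ {n : ℕ} {l : Fin n → V3} {w : Fin n → ℕ},
  (∀ i j, i ≠ j → LinearIndependent ℂ ![l i, l j]) → ConfE (pts l) w →
  ∀ {v : K}, NoForms L₀ v → v ^ 3 = ∏ i, ev (gp x y) (l i) ^ w i → Good x y v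

/-! ## Part 4: the machine -/

/-- JOB K3. Proof: as `BC.kummer` (file BC/Kummer). `σ (w i) = ζ^{σ_i} w i` with a primitive cube root of unity `ζ ∈ ℂ`. For
`e : Fin k → Fin 3` let `H e` be the stabilizer of `∏ w_i^{e_i}`: `σ ∈ H e` iff `3 ∣ ∑ e_i σ_i`. The coefficients:
`c e = 3 / (2 · 3^k) - (if e = 0 then 1/2 else 0)`. For `σ ≠ 1` the number of the `e` with `σ ∈ H e` is `3^{k-1}` (the
kernel of a nonzero homomorphism `(ZMod 3)^k → ZMod 3`; one can use `∑_e ∏ ζ^{e_i σ_i} = 0` and `∑_e ∏ ζ^{2 e_i σ_i} = 0`, with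
`[3 ∣ m] = (1 + ζ^m + ζ^{2m}) / 3`); so the sum of the coefficients is 0; for `σ = 1` it is `3/2 - 1/2 = 1`. -/
def S_K3 : Prop := ∀ {K : Type} [Field K] [Algebra ℂ K] {k₀ : IntermediateField ℂ K} {k : ℕ}
  {w : Fin k → K}, (∀ i, w i ^ 3 ∈ k₀) → (∀ i, w i ≠ 0) →
  IntermediateField.adjoin k₀ (Set.range w) = ⊤ →
  (∀ e : Fin k → Fin 3, ∃ L : IntermediateField ℂ K, k₀ ≤ L ∧ ∏ i, w i ^ (e i : ℕ) ∈ L ∧
    ∃ m : ℕ, Nonempty (L →ₐ[ℂ] FractionRing (PR m))) →
  ∀ {N : ℕ} (ξ : Fin (N + 1) → K) (hξ : ξ ≠ 0), ∀ a b : (locus ξ hξ).Pts ℂ, cls a = cls b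

end Pool.Agent.J4H13.TL
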