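import Pool.Agent.J4H13.TL.Forms

/-!
# Removing cubes from a product of linear forms
-/

set_option autoImplicit false

open FF

namespace Pool.Agent.J4H13.TL

open Pool.Agent.J4H13.BC Pool.Agent.J4H13.LA Pool.Agent.W602.GT Pool.Agent.W603.LV

variable {K : Type} [Field K] [Algebra ℂ K]

/-- Removing cubes. -/
lemma reduce3 {x y : K} (hxy : AlgebraicIndependent ℂ ![x, y]) {ι : Type} [DecidableEq ι]
    {l : ι → V3} (hl0 : ∀ i, l i ≠ 0) (N : ℕ) : ∀ (T : Finset ι), T.card = N →
    ∀ (e : ι → ℕ), 3 ∣ ∑ i ∈ T, e i → ∀ w : K, w ^ 3 = ∏ i ∈ T, ev (gp x y) (l i) ^ e i →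
    ∃ (n k : ℕ) (l' : Fin n → V3) (w' : Fin n → ℕ),
      (∀ i j, i ≠ j → LinearIndependent ℂ ![l' i, l' j]) ∧ (∀ i, l' i ≠ 0) ∧ IsWt w' ∧
      ∑ i, w' i = 3 * k ∧
      ∃ g v : K, (∀ L : IntermediateField ℂ K, x ∈ L → y ∈ L → g ∈ L) ∧ g ≠ 0 ∧ w = g * v ∧
        v ^ 3 = ∏ i, ev (gp x y) (l' i) ^ w' i := by
  classical
  induction N with
  | zero =>
    intro T hT e _ w hw
    have hT0 : T = ∅ := Finset.card_eq_zero.1 (by omega)
    refine ⟨0, 0, fun i => i.elim0, fun i => i.elim0, fun i => i.elim0, fun i => i.elim0,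
      fun i => i.elim0, rfl, 1, w, fun L _ _ => one_mem L, one_ne_zero, (one_mul w).symm, ?_⟩
    rw [hw, hT0, Finset.prod_empty]
    rfl
  | succ N ih =>
    intro T hT e he w hw
    by_cases hpair : ∀ i ∈ T, ∀ j ∈ T, i ≠ j → LinearIndependent ℂ ![l i, l j]
    · obtain ⟨T', hT'⟩ : ∃ T', T' = T.filter fun i => e i % 3 ≠ 0 := ⟨_, rfl⟩
      obtain ⟨g, hg⟩ : ∃ g, g = ∏ i ∈ T, ev (gp x y) (l i) ^ (e i / 3) := ⟨_, rfl⟩
      have hg0 : g ≠ 0 := by
        rw [hg]
        exact Finset.prod_ne_zero_iff.2 fun i _ => pow_ne_zero _ (ev_gp_ne_zero hxy (hl0 i))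
      have hgm : ∀ L : IntermediateField ℂ K, x ∈ L → y ∈ L → g ∈ L := by
        intro L hx hy
        rw [hg]
        exact _root_.prod_mem fun i _ => pow_mem (ev_mem hx hy _) _
      have hprod : w ^ 3 = g ^ 3 * ∏ i ∈ T', ev (gp x y) (l i) ^ (e i % 3) := by
        rw [hw, hg, ← Finset.prod_pow]
        have h1 : ∏ i ∈ T', ev (gp x y) (l i) ^ (e i % 3) =
            ∏ i ∈ T, ev (gp x y) (l i) ^ (e i % 3) := by
          rw [hT']
          apply Finset.prod_subset (Finset.filter_subset _ _)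
          intro i hi hi'
          rw [Finset.mem_filter] at hi'
          have : e i % 3 = 0 := by
            by_contra h
            exact hi' ⟨hi, h⟩
          rw [this, pow_zero]
        rw [h1, ← Finset.prod_mul_distrib]
        refine Finset.prod_congr rfl fun i _ => ?_
        rw [← pow_mul, ← pow_add]
        congr 1
        omega
      have hsum : ∃ k, ∑ i ∈ T', e i % 3 = 3 * k := by
        have h1 : ∑ i ∈ T', e i % 3 = ∑ i ∈ T, e i % 3 := by
          rw [hT']
          apply Finset.sum_subset (Finset.filter_subset _ _)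
          intro i hi hi'
          rw [Finset.mem_filter] at hi'
          by_contra h
          exact hi' ⟨hi, h⟩
        rw [h1]
        have h2 : ∑ i ∈ T, e i = 3 * ∑ i ∈ T, e i / 3 + ∑ i ∈ T, e i % 3 := by
          rw [Finset.mul_sum, ← Finset.sum_add_distrib]
          refine Finset.sum_congr rfl fun i _ => ?_
          omega
        rw [h2] at he
        exact (Nat.dvd_add_right (dvd_mul_right 3 _)).1 he
      obtain ⟨k, hk⟩ := hsum
      have eq : Fin T'.card ≃ T' := (Finset.equivFinOfCardEq rfl).symm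
      have hmemT : ∀ i, i ∈ T' → i ∈ T ∧ e i % 3 ≠ 0 := by
        intro i hi
        rw [hT'] at hi
        exact Finset.mem_filter.1 hi
      have hmem : ∀ i : Fin T'.card, (eq i : ι) ∈ T := fun i => (hmemT _ (eq i).2).1
      refine ⟨T'.card, k, fun i => l (eq i), fun i => e (eq i) % 3, ?_, fun i => hl0 _, ?_, ?_, g,
        w / g, hgm, hg0, ?_, ?_⟩
      · intro i j hij
        exact hpair _ (hmem i) _ (hmem j) (fun h => hij (eq.injective (Subtype.ext h)))
      · intro i
        have h2 := (hmemT _ (eq i).2).2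
        have h3 := Nat.mod_lt (e (eq i)) (by norm_num : 3 > 0)
        rcases (by omega : e (eq i) % 3 = 1 ∨ e (eq i) % 3 = 2) with h4 | h4
        · exact Or.inl h4
        · exact Or.inr h4
      · rw [← hk, ← Finset.sum_coe_sort T']
        exact Equiv.sum_comp eq (fun i : T' => e i % 3)
      · field_simp
      · rw [div_pow, hprod, mul_div_cancel_left₀ _ (pow_ne_zero 3 hg0), ← Finset.prod_coe_sort]
        exact (Equiv.prod_comp eq (fun i : T' => ev (gp x y) (l i) ^ (e i % 3))).symm
    · push Not at hpair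
      obtain ⟨i, hi, j, hj, hij, hdep⟩ := hpair
      obtain ⟨c, hc0, hc⟩ : ∃ c : ℂ, c ≠ 0 ∧ l j = c • l i := by
        rw [LinearIndependent.pair_iff] at hdep
        push Not at hdep
        obtain ⟨s, t, hst, h6⟩ := hdep
        have ht : t ≠ 0 := by
          rintro rfl
          rw [zero_smul, add_zero] at hst
          have hs : s = 0 := (smul_eq_zero.1 hst).resolve_right (hl0 i)
          exact h6 hs rfl
        have hs : s ≠ 0 := by
          rintro rfl
          rw [zero_smul, zero_add] at hst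
          exact ht ((smul_eq_zero.1 hst).resolve_right (hl0 j))
        refine ⟨-(s / t), neg_ne_zero.2 (div_ne_zero hs ht), ?_⟩
        have h7 : l j = t⁻¹ • (t • l j) := by
          rw [smul_smul, inv_mul_cancel₀ ht, one_smul]
        rw [h7, eq_neg_of_add_eq_zero_right hst, smul_neg, smul_smul, neg_smul]
        congr 2
        field_simp
      obtain ⟨r, hr⟩ := IsAlgClosed.exists_pow_nat_eq (c ^ e j) (n := 3) (by norm_num)
      have hr0 : r ≠ 0 := by
        rintro rfl
        apply pow_ne_zero (e j) hc0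
        rw [← hr]
        ring
      obtain ⟨T₁, hT₁⟩ : ∃ T₁, T₁ = T.erase j := ⟨_, rfl⟩
      have hT₁c : T₁.card = N := by
        rw [hT₁, Finset.card_erase_of_mem hj]
        omega
      have hiT₁ : i ∈ T₁ := by
        rw [hT₁]
        exact Finset.mem_erase.2 ⟨hij, hi⟩
      obtain ⟨e₁, he₁⟩ : ∃ e₁, e₁ = Function.update e i (e i + e j) := ⟨_, rfl⟩
      have he₁i : e₁ i = e i + e j := by
        rw [he₁, Function.update_self]
      have he₁n : ∀ m, m ≠ i → e₁ m = e m := by
        intro m hm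
        rw [he₁, Function.update_of_ne hm]
      have hsum : ∑ m ∈ T₁, e₁ m = ∑ m ∈ T, e m := by
        rw [← Finset.add_sum_erase T e hj, ← hT₁, ← Finset.add_sum_erase T₁ e hiT₁,
          ← Finset.add_sum_erase T₁ e₁ hiT₁, he₁i]
        have : ∑ m ∈ T₁.erase i, e₁ m = ∑ m ∈ T₁.erase i, e m :=
          Finset.sum_congr rfl fun m hm => he₁n m (Finset.ne_of_mem_erase hm)
        rw [this]
        ring
      have hprod : ∏ m ∈ T, ev (gp x y) (l m) ^ e m =
          algebraMap ℂ K (c ^ e j) * ∏ m ∈ T₁, ev (gp x y) (l m) ^ e₁ m := by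
        rw [← Finset.mul_prod_erase T _ hj, ← hT₁, ← Finset.mul_prod_erase T₁ _ hiT₁,
          ← Finset.mul_prod_erase T₁ (fun m => ev (gp x y) (l m) ^ e₁ m) hiT₁, he₁i]
        have : ∏ m ∈ T₁.erase i, ev (gp x y) (l m) ^ e₁ m =
            ∏ m ∈ T₁.erase i, ev (gp x y) (l m) ^ e m :=
          Finset.prod_congr rfl fun m hm => by rw [he₁n m (Finset.ne_of_mem_erase hm)]
        rw [this, hc, ev_smul, map_pow]
        ring
      have hrK : algebraMap ℂ K r ≠ 0 := (map_ne_zero _).2 hr0
      obtain ⟨n, k, l', w', h1, h1', h2, h3, g, v, h4, h5, h6, h7⟩ := ih T₁ hT₁c e₁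
        (by rw [hsum]; exact he) (w / algebraMap ℂ K r) (by
          rw [div_pow, hw, hprod, ← map_pow, hr]
          rw [mul_div_cancel_left₀]
          exact (map_ne_zero _).2 (pow_ne_zero _ hc0))
      refine ⟨n, k, l', w', h1, h1', h2, h3, algebraMap ℂ K r * g, v, ?_, mul_ne_zero hrK h5, ?_,
        h7⟩
      · intro L hx hy
        exact mul_mem (L.algebraMap_mem _) (h4 L hx hy)
      · rw [mul_assoc, ← h6]
        field_simp

end Pool.Agent.J4H13.TL
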