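import Pool.Agent.J4H13.TL.Comb
import Pool.Agent.J4H13.TL.Red

/-!
# Zero-cycles on the triple covers of the plane branched along lines: assembly
-/

set_option autoImplicit false

open FF

namespace Pool.Agent.J4H13.TL

open Pool.Agent.J4H13.LA Pool.Agent.J4H13.BC Pool.Agent.W602.GT Pool.Agent.W603.LV
  Pool.Agent.Helper397.HK

variable {K : Type} [Field K] [Algebra ℂ K]

/-- a cube root of unity is a constant -/
lemma const_of_cube {v : K} (hv : v ^ 3 = 1) : ∃ c : ℂ, algebraMap ℂ K c = v := by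
  have h1 : IsIntegral ℂ v := by
    refine ⟨Polynomial.X ^ 3 - Polynomial.C 1, Polynomial.monic_X_pow_sub_C _ (by norm_num), ?_⟩
    simp [hv]
  have h2 : v ∈ Set.range (algebraMap ℂ K) := by
    have h3 : (minpoly ℂ v).degree = 1 :=
      IsAlgClosed.degree_eq_one_of_irreducible ℂ (minpoly.irreducible h1)
    exact minpoly.mem_range_of_degree_eq_one ℂ v h3
  exact h2

/-- The product of all lines. -/
lemma prod_mem_L {x y : K} {n : ℕ} (l : Fin n → V3) {L : IntermediateField ℂ K} (hx : x ∈ L)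
    (hy : y ∈ L) : ∏ i, ev (gp x y) (l i) ∈ L :=
  _root_.prod_mem fun i _ => ev_mem hx hy _

section

variable (hREG : S_REG)

include hREG in
/-- An adjoint curve gives a regular form. -/
lemma no_adj {x y : K} (hxy : AlgebraicIndependent ℂ ![x, y]) {L₀ : IntermediateField ℂ K}
    (hx : x ∈ L₀) (hy : y ∈ L₀) {n k : ℕ} {l : Fin n → V3} {w : Fin n → ℕ} (hn : 2 ≤ n)
    (hl : ∀ i j, i ≠ j → LinearIndependent ℂ ![l i, l j]) (hw : IsWt w)
    (hk : ∑ i, w i = 3 * k) (hk3 : 3 ≤ k) {v : K} (hno : No2 L₀ v) (hv0 : v ≠ 0)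
    (hv : v ^ 3 = ∏ i, ev (gp x y) (l i) ^ w i) : ¬ Adj l w k := by
  rintro ⟨Q, hQ0, hQ, hmult⟩
  have hQmem : MvPolynomial.aeval (gp x y) Q ∈ L₀ := by
    have h1 : ∀ i, gp x y i ∈ L₀ := by
      intro i
      fin_cases i
      · exact one_mem L₀
      · exact hx
      · exact hy
    rw [MvPolynomial.aeval_def, MvPolynomial.eval₂_eq]
    refine _root_.sum_mem fun d _ => mul_mem (L₀.algebraMap_mem _) ?_
    exact _root_.prod_mem fun i _ => pow_mem (h1 i) _
  obtain ⟨D, h0x, h0y, h1x, h1y⟩ := exists_ders hxy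
  have h1 := hno x hx y hy _ hQmem (fun P _ D₁ D₂ h₁ h₂ =>
    hREG hxy hn hl hw hk hk3 hv0 hv hQ hmult P h₁ h₂) (D 0) (D 1)
  simp only [wedge, h0x, h0y, h1x, h1y] at h1
  have h2 : MvPolynomial.aeval (gp x y) Q / v = 0 := by
    rw [← h1]
    ring
  exact div_ne_zero (aeval_gp_ne_zero hxy hQ hQ0) hv0 h2

variable (hCNT : S_CNT) (hFOUR : S_FOUR) (hINQ : S_INQ) (hN63 : S_N63) (hN74 : S_N74)
  (hN44 : S_N44) (hN55 : S_N55) (hN66A : S_N66A) (hN66B : S_N66B) (hGEO9 : S_GEO9)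
  (hGEO8 : S_GEO8) (hADJ : S_ADJ) (hADJ2 : S_ADJ2) (hLIN : S_LIN) (hEXC : S_EXC)

include hREG hCNT hFOUR hINQ hN63 hN74 hN44 hN55 hN66A hN66B hGEO9 hGEO8 hADJ hADJ2 hLIN hEXC in
/-- **Cyclic triple planes branched along lines.** -/
theorem good_lines3 {x y : K} (hxy : AlgebraicIndependent ℂ ![x, y])
    {L₀ : IntermediateField ℂ K} (hx : x ∈ L₀) (hy : y ∈ L₀) {n k : ℕ} {l : Fin n → V3}
    {w : Fin n → ℕ} (hl : ∀ i j, i ≠ j → LinearIndependent ℂ ![l i, l j]) (hl0 : ∀ i, l i ≠ 0)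
    (hw : IsWt w) (hk : ∑ i, w i = 3 * k) {v : K} (hno : NoForms L₀ v)
    (hv : v ^ 3 = ∏ i, ev (gp x y) (l i) ^ w i) : Good x y v := by
  classical
  have hev0 : ∀ i, ev (gp x y) (l i) ≠ 0 := fun i => ev_gp_ne_zero hxy (hl0 i)
  have hv0 : v ≠ 0 := by
    rintro rfl
    have h1 : (∏ i, ev (gp x y) (l i) ^ w i) ≠ 0 :=
      Finset.prod_ne_zero_iff.2 fun i _ => pow_ne_zero _ (hev0 i)
    apply h1
    rw [← hv]
    ring
  rcases Nat.lt_or_ge n 2 with hn | hn
  · -- at most one line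
    rcases (by omega : n = 0 ∨ n = 1) with rfl | rfl
    · obtain ⟨c, hc⟩ := const_of_cube (v := v) (by rw [hv]; rfl)
      refine ⟨IntermediateField.adjoin ℂ {x, y}, IntermediateField.subset_adjoin _ _ (by simp),
        IntermediateField.subset_adjoin _ _ (by simp), ?_, 2, embed_of_two hxy
        (IntermediateField.subset_adjoin _ _ (by simp))
        (IntermediateField.subset_adjoin _ _ (by simp))⟩
      rw [← hc]
      exact IntermediateField.algebraMap_mem _ _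
    · exfalso
      rw [Fin.sum_univ_one] at hk
      rcases hw 0 with h | h <;> omega
  -- the complementary root
  obtain ⟨p, hp⟩ : ∃ p : K, p = ∏ i, ev (gp x y) (l i) := ⟨_, rfl⟩
  have hp0 : p ≠ 0 := by
    rw [hp]
    exact Finset.prod_ne_zero_iff.2 fun i _ => hev0 i
  have hpL : ∀ L : IntermediateField ℂ K, x ∈ L → y ∈ L → p ∈ L := by
    intro L hx hy
    rw [hp]
    exact prod_mem_L l hx hy
  have hv3 : v ^ 3 ∈ L₀ := by
    rw [hv]
    exact _root_.prod_mem fun i _ => pow_mem (ev_mem hx hy _) _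
  have hno' : NoForms L₀ (p * v⁻¹) := (hno.inv hv3).mul (hpL L₀ hx hy)
  have hv0' : p * v⁻¹ ≠ 0 := mul_ne_zero hp0 (inv_ne_zero hv0)
  have hw' := isWt_co hw
  have hv' : (p * v⁻¹) ^ 3 = ∏ i, ev (gp x y) (l i) ^ co w i := by
    rw [mul_pow, inv_pow, hv, hp, ← Finset.prod_pow]
    rw [mul_inv_eq_iff_eq_mul₀ (Finset.prod_ne_zero_iff.2 fun i _ => pow_ne_zero _ (hev0 i)),
      ← Finset.prod_mul_distrib]
    refine Finset.prod_congr rfl fun i _ => ?_
    rw [← pow_add]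
    congr 1
    unfold co
    rcases hw i with h | h <;> omega
  have hback : Good x y (p * v⁻¹) → Good x y v := by
    rintro ⟨L, h1, h2, h3, h4⟩
    refine ⟨L, h1, h2, ?_, h4⟩
    have h5 : v = p / (p * v⁻¹) := by
      field_simp
    rw [h5]
    exact div_mem (hpL L h1 h2) h3
  obtain ⟨k', hk'⟩ : ∃ k', ∑ i, co w i = 3 * k' := by
    have h1 := W_co hw Finset.univ
    rw [Finset.card_univ, Fintype.card_fin] at h1
    have h2 : W w Finset.univ = 3 * k := hk
    exact ⟨n - k, by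
      change W (co w) Finset.univ = _
      omega⟩
  -- pencils
  have hfin : ∀ F ∈ pts l, ∃ U : Submodule ℂ V3, Module.finrank ℂ U ≤ 2 ∧ F = thr l U := by
    intro F hF
    obtain ⟨i, j, hij, rfl⟩ := mem_pts.1 hF
    exact ⟨pt l i j, (finrank_pt (hl i j hij)).le, rfl⟩
  by_cases h1 : ∀ F ∈ pts l, W w F + 4 ≤ 3 * k
  · by_cases h1' : ∀ F ∈ pts l, W (co w) F + 4 ≤ 3 * k'
    · rcases comb hCNT hFOUR hINQ hN63 hN74 hN44 hN55 hN66A hN66B hGEO9 hGEO8 hADJ hADJ2 hn hl hl0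
        hw hk hk' h1 h1' with h | h | h | h
      · exact (no_adj hREG hxy hx hy hn hl hw hk h.1 hno.two_one hv0 hv h.2).elim
      · exact (no_adj hREG hxy hx hy hn hl hw' hk' h.1 hno'.two_one hv0' hv' h.2).elim
      · exact hEXC hxy hx hy hl h hno hv
      · exact hback (hEXC hxy hx hy hl h hno' hv')
    · push Not at h1'
      obtain ⟨F, hF, hF4⟩ := h1'
      obtain ⟨U, hU, rfl⟩ := hfin F hF
      have h2 := W_compl (co w) (thr l U)
      rw [hk'] at h2
      refine hLIN hxy hx hy hn hl hw hk hno hv hU ?_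
      rcases resid hw' (R := (thr l U)ᶜ) (by omega) with h3 | h3
      · exact Or.inl h3
      · refine Or.inr ⟨h3.1, 2, fun i hi => ?_⟩
        exact (co_eq_one hw i).1 (h3.2 i (Finset.mem_compl.2 hi))
  · push Not at h1
    obtain ⟨F, hF, hF4⟩ := h1
    obtain ⟨U, hU, rfl⟩ := hfin F hF
    have h2 := W_compl w (thr l U)
    rw [hk] at h2
    refine hLIN hxy hx hy hn hl hw hk hno hv hU ?_
    rcases resid hw (R := (thr l U)ᶜ) (by omega) with h3 | h3
    · exact Or.inl h3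
    · exact Or.inr ⟨h3.1, 1, fun i hi => h3.2 i (Finset.mem_compl.2 hi)⟩

include hREG hCNT hFOUR hINQ hN63 hN74 hN44 hN55 hN66A hN66B hGEO9 hGEO8 hADJ hADJ2 hLIN hEXC in
/-- Cube roots of arbitrary products of linear forms. -/
theorem good_cbrt {x y : K} (hxy : AlgebraicIndependent ℂ ![x, y])
    {L₀ : IntermediateField ℂ K} (hx : x ∈ L₀) (hy : y ∈ L₀) {ι : Type} [DecidableEq ι]
    {l : ι → V3} (hl0 : ∀ i, l i ≠ 0) (T : Finset ι) (e : ι → ℕ) {w : K} (hno : NoForms L₀ w)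
    (hw : w ^ 3 = ∏ i ∈ T, ev (gp x y) (l i) ^ e i) : Good x y w := by
  classical
  obtain ⟨m, hm⟩ : ∃ m : ℕ, 3 ∣ m + ∑ i ∈ T, e i := ⟨3 - (∑ i ∈ T, e i) % 3, by omega⟩
  have hl1 : ∀ i : Option ι, (i.elim (Pi.single 0 1) l : V3) ≠ 0 := by
    intro i
    cases i with
    | none =>
      intro h
      have := congrFun h 0
      simp at this
    | some i => exact hl0 i
  obtain ⟨n, k, l', w', h1, h1', h2, h3, g, v, hg, hg0, hwg, hv⟩ := reduce3 hxy
    (l := fun i : Option ι => i.elim (Pi.single 0 1) l) hl1 _ (Finset.insertNone T) rfl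
    (fun i => i.elim m e) (by
      rw [Finset.sum_insertNone]
      exact hm) w (by
      rw [Finset.prod_insertNone]
      change w ^ 3 = ev (gp x y) (Pi.single 0 1) ^ m * ∏ i ∈ T, ev (gp x y) (l i) ^ e i
      rw [ev_single, hw]
      change _ = 1 ^ m * _
      rw [one_pow, one_mul])
  have hno' : NoForms L₀ v := by
    have h4 := hno.mul (inv_mem (hg L₀ hx hy))
    have h5 : g⁻¹ * w = v := by
      rw [hwg]
      field_simp
    rwa [h5] at h4
  obtain ⟨L, h4, h5, h6, h7⟩ := good_lines3 hREG hCNT hFOUR hINQ hN63 hN74 hN44 hN55 hN66A hN66B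
    hGEO9 hGEO8 hADJ hADJ2 hLIN hEXC hxy hx hy h1 h1' h2 h3 hno' hv
  exact ⟨L, h4, h5, by rw [hwg]; exact mul_mem (hg L h4 h5) h6, h7⟩

variable (hK3 : S_K3)

include hREG hCNT hFOUR hINQ hN63 hN74 hN44 hN55 hN66A hN66B hGEO9 hGEO8 hADJ hADJ2 hLIN hEXC
  hK3 in
/-- **Bloch's conjecture for the covers of the plane with the group `(ℤ/3)^r` branched along
lines.** -/
theorem bloch_lines3 {x y : K} (hxy : AlgebraicIndependent ℂ ![x, y]) {k : ℕ} {w : Fin k → K}
    (hw : ∀ i, ∃ (n : ℕ) (l : Fin n → V3), (∀ j, l j ≠ 0) ∧ w i ^ 3 = ∏ j, ev (gp x y) (l j))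
    (hno : ∀ e : Fin k → Fin 3, NoForms (IntermediateField.adjoin ℂ {x, y}) (∏ i, w i ^ (e i : ℕ)))
    (hgen : IntermediateField.adjoin ℂ ({x, y} ∪ Set.range w) = ⊤)
    {N : ℕ} (ξ : Fin (N + 1) → K) (hξ : ξ ≠ 0) : ∀ a b : (locus ξ hξ).Pts ℂ, cls a = cls b := by
  classical
  choose n l hl0 hw3 using hw
  obtain ⟨k₀, hk₀⟩ : ∃ k₀ : IntermediateField ℂ K, k₀ = IntermediateField.adjoin ℂ {x, y} :=
    ⟨_, rfl⟩
  rw [← hk₀] at hno
  have hxk : x ∈ k₀ := by
    rw [hk₀]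
    exact IntermediateField.subset_adjoin _ _ (by simp)
  have hyk : y ∈ k₀ := by
    rw [hk₀]
    exact IntermediateField.subset_adjoin _ _ (by simp)
  have hwk : ∀ i, w i ^ 3 ∈ k₀ := by
    intro i
    rw [hw3]
    exact _root_.prod_mem fun j _ => ev_mem hxk hyk _
  have hw0 : ∀ i, w i ≠ 0 := by
    intro i h
    have h1 : (∏ j, ev (gp x y) (l i j)) = 0 := by
      rw [← hw3, h]
      ring
    obtain ⟨j, -, hj⟩ := Finset.prod_eq_zero_iff.1 h1
    exact ev_gp_ne_zero hxy (hl0 i j) hj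
  have hgen' : IntermediateField.adjoin k₀ (Set.range w) = ⊤ := by
    apply IntermediateField.restrictScalars_injective ℂ
    rw [IntermediateField.restrictScalars_top, eq_top_iff, ← hgen,
      IntermediateField.adjoin_le_iff]
    rintro z (hz | hz)
    · change z ∈ IntermediateField.adjoin k₀ (Set.range w)
      have h1 : z ∈ k₀ := by
        rcases hz with rfl | hz
        · exact hxk
        · rw [Set.mem_singleton_iff] at hz
          rw [hz]
          exact hyk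
      exact (IntermediateField.adjoin k₀ (Set.range w)).algebraMap_mem ⟨z, h1⟩
    · change z ∈ IntermediateField.adjoin k₀ (Set.range w)
      exact IntermediateField.subset_adjoin _ _ hz
  refine hK3 hwk hw0 hgen' ?_ ξ hξ
  intro e
  have hS : (∏ i, w i ^ (e i : ℕ)) ^ 3 =
      ∏ p ∈ Finset.univ.sigma (fun i : Fin k => (Finset.univ : Finset (Fin (n i)))),
      ev (gp x y) (l p.1 p.2) ^ (e p.1 : ℕ) := by
    rw [← Finset.prod_pow, Finset.prod_sigma]
    refine Finset.prod_congr rfl fun i _ => ?_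
    rw [← pow_mul, mul_comm, pow_mul, hw3]
    exact (Finset.prod_pow _ _ _).symm
  obtain ⟨L, hx, hy, hwL, m, hL⟩ := good_cbrt hREG hCNT hFOUR hINQ hN63 hN74 hN44 hN55 hN66A
    hN66B hGEO9 hGEO8 hADJ hADJ2 hLIN hEXC hxy hxk hyk
    (l := fun p : (i : Fin k) × Fin (n i) => l p.1 p.2) (fun p => hl0 p.1 p.2) _
    (fun p => (e p.1 : ℕ)) (hno e) hS
  refine ⟨L, ?_, hwL, m, hL⟩
  rw [hk₀, IntermediateField.adjoin_le_iff]
  rintro z (rfl | hz)
  · exact hx
  · rw [Set.mem_singleton_iff] at hz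
    rw [hz]
    exact hy

end

end Pool.Agent.J4H13.TL
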